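import Mathlib

/-! Polynomial Pell equations near the origin: basic facts. -/

set_option autoImplicit false

open Polynomial

namespace Pool.Agent.X35.PE

open scoped PowerSeries

/-- `x ^ k` divides a factor if the other factor has nonzero constant coefficient -/
lemma xpow_of_mul {A : Type*} [CommRing A] [IsDomain A] {u g : A⟦X⟧} {k : ℕ}
    (hu : PowerSeries.constantCoeff u ≠ 0) (h : (PowerSeries.X : A⟦X⟧) ^ k ∣ g * u) :
    (PowerSeries.X : A⟦X⟧) ^ k ∣ g := by
  have hX : Prime (PowerSeries.X : A⟦X⟧) := PowerSeries.X_prime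
  have h1 : ¬ (PowerSeries.X : A⟦X⟧) ∣ u := by
    rwa [PowerSeries.X_dvd_iff]
  exact hX.pow_dvd_of_dvd_mul_right k h1 h

/-- a polynomial of degree `< k` divisible by `x ^ k` is zero -/
lemma poly_zero {A : Type*} [CommRing A] {g : A[X]} {k : ℕ} (h : (PowerSeries.X : A⟦X⟧) ^ k ∣ (g : A⟦X⟧))
    (hd : g.natDegree < k) : g = 0 := by
  ext i
  by_cases hi : i < k
  · have := PowerSeries.X_pow_dvd_iff.1 h i hi
    rwa [Polynomial.coeff_coe] at this
  · rw [coeff_eq_zero_of_natDegree_lt (by omega), coeff_zero]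

/-- a polynomial of degree `≤ k` divisible by `x ^ k` is a multiple of `x ^ k` -/
lemma poly_top {A : Type*} [CommRing A] {g : A[X]} {k : ℕ} (h : (PowerSeries.X : A⟦X⟧) ^ k ∣ (g : A⟦X⟧))
    (hd : g.natDegree ≤ k) : g = C (g.coeff k) * X ^ k := by
  ext i
  rw [coeff_C_mul, coeff_X_pow]
  by_cases hi : i < k
  · have := PowerSeries.X_pow_dvd_iff.1 h i hi
    rw [Polynomial.coeff_coe] at this
    rw [this, if_neg (by omega), mul_zero]
  · by_cases hik : i = k
    · rw [if_pos hik, hik, mul_one]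
    · rw [coeff_eq_zero_of_natDegree_lt (by omega), if_neg hik, mul_zero]

/-- cancel a nonzero constant -/
lemma xpow_of_C_mul {A : Type*} [CommRing A] [IsDomain A] {a : A} (ha : a ≠ 0) {g : A⟦X⟧} {k : ℕ}
    (h : (PowerSeries.X : A⟦X⟧) ^ k ∣ PowerSeries.C a * g) : (PowerSeries.X : A⟦X⟧) ^ k ∣ g := by
  rw [mul_comm] at h
  exact xpow_of_mul (by rwa [PowerSeries.constantCoeff_C]) h

/-- Pade approximants -/
theorem pade {A : Type*} [CommRing A] [IsDomain A] (s : A⟦X⟧) {n D : ℕ} (hn : 1 ≤ n) (hD : n ≤ D) :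
    ∃ Q : A[X], Q ≠ 0 ∧ Q.natDegree + n ≤ D ∧ ∀ i, D < i → i ≤ 2 * D - n →
      PowerSeries.coeff i ((Q : A⟦X⟧) * s) = 0 := by
  classical
  -- the linear map
  let L : (Fin (D - n + 1) → A) →ₗ[A] (Fin (D - n) → A) :=
    { toFun := fun x i => ∑ e : Fin (D - n + 1), x e * PowerSeries.coeff (D + 1 + i - e) s
      map_add' := fun x y => by
        ext i
        simp only [Pi.add_apply]
        rw [← Finset.sum_add_distrib]
        exact Finset.sum_congr rfl fun e _ => by ring
      map_smul' := fun a x => by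
        ext i
        simp only [Pi.smul_apply, smul_eq_mul, RingHom.id_apply]
        rw [Finset.mul_sum]
        exact Finset.sum_congr rfl fun e _ => by ring }
  have hker : ∃ x, x ≠ 0 ∧ L x = 0 := by
    by_contra hcon
    push Not at hcon
    have hinj : Function.Injective L := by
      rw [← LinearMap.ker_eq_bot, LinearMap.ker_eq_bot']
      intro x hx
      by_contra h
      exact hcon x h hx
    have := LinearMap.finrank_le_finrank_of_injective hinj
    rw [Module.finrank_fin_fun, Module.finrank_fin_fun] at this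
    omega
  obtain ⟨x, hx0, hx⟩ := hker
  set Q : A[X] := ∑ e : Fin (D - n + 1), C (x e) * X ^ (e : ℕ) with hQ
  have hcoeff : ∀ j : Fin (D - n + 1), Q.coeff j = x j := fun j => by
    rw [hQ, finsetSum_coeff]
    simp only [coeff_C_mul, coeff_X_pow]
    rw [Finset.sum_eq_single j]
    · simp
    · intro b _ hb
      rw [if_neg (fun h => hb (Fin.ext h.symm)), mul_zero]
    · intro h; exact absurd (Finset.mem_univ _) h
  refine ⟨Q, ?_, ?_, fun i hi1 hi2 => ?_⟩
  · intro h
    apply hx0
    ext j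
    rw [← hcoeff j, h, coeff_zero]
    rfl
  · have : Q.natDegree ≤ D - n := by
      rw [hQ]
      apply natDegree_sum_le_of_forall_le
      intro e _
      refine (natDegree_C_mul_X_pow_le _ _).trans ?_
      have := e.2
      omega
    omega
  · have h1 := congrFun hx ⟨i - (D + 1), by omega⟩
    simp only [L, LinearMap.coe_mk, AddHom.coe_mk, Pi.zero_apply] at h1
    rw [hQ]
    have h2 : ((∑ e : Fin (D - n + 1), C (x e) * X ^ (e : ℕ) : A[X]) : A⟦X⟧) * s =
        ∑ e : Fin (D - n + 1), PowerSeries.C (x e) * (PowerSeries.X ^ (e : ℕ) * s) := by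
      have h3 : ((∑ e : Fin (D - n + 1), C (x e) * X ^ (e : ℕ) : A[X]) : A⟦X⟧) =
          ∑ e : Fin (D - n + 1), ((C (x e) * X ^ (e : ℕ) : A[X]) : A⟦X⟧) := by
        simp only [← Polynomial.coeToPowerSeries.ringHom_apply, map_sum]
      rw [h3, Finset.sum_mul]
      refine Finset.sum_congr rfl fun e _ => ?_
      rw [Polynomial.coe_mul, Polynomial.coe_C, Polynomial.coe_pow, Polynomial.coe_X, mul_assoc]
    rw [h2, map_sum]
    rw [← h1]
    refine Finset.sum_congr rfl fun e _ => ?_
    rw [PowerSeries.coeff_C_mul, PowerSeries.coeff_X_pow_mul', if_pos (by have := e.2; omega)]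
    congr 3
    omega

end Pool.Agent.X35.PE
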