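import Pool.Agent.X35.PE.Fin

/-! The least degree of a solution is bounded by two primes. -/

set_option autoImplicit false

open Polynomial

namespace Pool.Agent.X35.PE

open scoped PowerSeries

variable {F : ℤ[X]} {s : ℤ⟦X⟧} {n : ℕ}

/-- bound for the least degree modulo `p` -/
def B (n p : ℕ) : ℕ := 2 * (n * (p ^ (3 * n) + 1))

/-- units can be made primitive at `p` -/
lemma primitive_at {p : ℕ} [Fact p.Prime] (hs : s ^ 2 = (F : ℤ⟦X⟧)) (hn : 1 ≤ n) (hF : F.natDegree ≤ 2 * n) {m : ℕ} :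
    ∀ (N : ℕ) (a b : ℤ[X]), (b.coeff 0).natAbs ≤ N → IsU F s n m a b →
      ∃ a b : ℤ[X], IsU F s n m a b ∧ ¬ (a.map (Int.castRingHom (ZMod p)) = 0 ∧ b.map (Int.castRingHom (ZMod p)) = 0) := by
  intro N
  induction N with
  | zero =>
    intro a b hN h
    exact absurd (Int.natAbs_eq_zero.1 (by omega)) h.2.2.1
  | succ N ih =>
    intro a b hN h
    by_cases hab : a.map (Int.castRingHom (ZMod p)) = 0 ∧ b.map (Int.castRingHom (ZMod p)) = 0
    · have hp : Nat.Prime p := Fact.out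
      have hp0 : (p : ℤ) ≠ 0 := by exact_mod_cast hp.ne_zero
      obtain ⟨a', ha'⟩ := (map_zero_iff a).1 hab.1
      obtain ⟨b', hb'⟩ := (map_zero_iff b).1 hab.2
      obtain ⟨h1, h2, h3, ⟨c, hc, h4⟩, h5⟩ := h
      have hb0 : b.coeff 0 = p * b'.coeff 0 := by rw [hb', coeff_C_mul]
      have hb'0 : b'.coeff 0 ≠ 0 := fun h => h3 (by rw [hb0, h, mul_zero])
      have hdiv : (PowerSeries.X : ℤ⟦X⟧) ^ (2 * m) ∣ (a' : ℤ⟦X⟧) - b' * s := by
        refine xpow_of_C_mul hp0 ?_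
        rw [ha', hb'] at h5
        convert h5 using 1
        push_cast
        ring
      have hdega : a'.natDegree ≤ m := by
        have : a.natDegree = a'.natDegree := by rw [ha', natDegree_C_mul hp0]
        omega
      have hdegb : b'.natDegree + n ≤ m := by
        have : b.natDegree = b'.natDegree := by rw [hb', natDegree_C_mul hp0]
        omega
      have htop := poly_top (g := a' ^ 2 - b' ^ 2 * F) (k := 2 * m) (by
        have : ((a' ^ 2 - b' ^ 2 * F : ℤ[X]) : ℤ⟦X⟧) = ((a' : ℤ⟦X⟧) - (b' : ℤ⟦X⟧) * s) * ((a' : ℤ⟦X⟧) + (b' : ℤ⟦X⟧) * s) := by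
          push_cast
          rw [← hs]
          ring
        rw [this]
        exact Dvd.dvd.mul_right hdiv _) (by
        refine (natDegree_sub_le _ _).trans (max_le ?_ ?_)
        · refine natDegree_pow_le.trans ?_
          omega
        · refine natDegree_mul_le.trans ?_
          have h4 := natDegree_pow_le (p := b') (n := 2)
          omega)
      refine ih a' b' ?_ ⟨hdega, hdegb, hb'0, ⟨_, ?_, htop⟩, hdiv⟩
      · rw [hb0, Int.natAbs_mul, Int.natAbs_natCast] at hN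
        have h6 : 1 ≤ (b'.coeff 0).natAbs := Nat.one_le_iff_ne_zero.2 (by rwa [Ne, Int.natAbs_eq_zero])
        have := hp.two_le
        nlinarith
      · intro h0
        rw [h0, C_0, zero_mul] at htop
        have h6 : a ^ 2 - b ^ 2 * F = C ((p : ℤ) ^ 2) * (a' ^ 2 - b' ^ 2 * F) := by
          rw [ha', hb', C_pow]
          ring
        rw [htop, mul_zero, h4] at h6
        rcases mul_eq_zero.1 h6 with h | h
        · exact hc (C_eq_zero.1 h)
        · exact absurd h (pow_ne_zero _ X_ne_zero)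
    · exact ⟨a, b, h, hab⟩

/-- the least degree over `Z` and the least degree modulo `p` -/
lemma least_mod {p : ℕ} [Fact p.Prime] (hp2 : (2 : ZMod p) ≠ 0) (hs : s ^ 2 = (F : ℤ⟦X⟧))
    (hs0 : PowerSeries.constantCoeff s = 1) (hn : 1 ≤ n) (hF : F.natDegree ≤ 2 * n)
    (hns : ∀ R : (ZMod p)[X], R ^ 2 ≠ F.map (Int.castRingHom (ZMod p))) {m : ℕ} (hm : HasU F s n m)
    (hmin : ∀ e, HasU F s n e → m ≤ e) : ∃ g e, g ≤ B n p ∧ m = g * p ^ e := by
  classical
  set φ : ℤ →+* ZMod p := Int.castRingHom (ZMod p) with hφ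
  set sb : (ZMod p)⟦X⟧ := PowerSeries.map φ s with hsb
  have hsb0 : PowerSeries.constantCoeff sb = 1 := by
    rw [hsb, ← PowerSeries.coeff_zero_eq_constantCoeff_apply, PowerSeries.coeff_map,
      PowerSeries.coeff_zero_eq_constantCoeff_apply, hs0, map_one]
  have hsb2 : sb ^ 2 = ((F.map φ : (ZMod p)[X]) : (ZMod p)⟦X⟧) := by
    rw [hsb, ← map_pow, hs, Polynomial.polynomial_map_coe]
  have hFb : (F.map φ).natDegree ≤ 2 * n := natDegree_map_le.trans hF
  have hm1 := hm.pos hn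
  obtain ⟨a0, b0, hab0⟩ := hm
  obtain ⟨a, b, ⟨h1, h2, h3, ⟨c, hc, h4⟩, h5⟩, hab⟩ := primitive_at (p := p) hs hn hF _ a0 b0 le_rfl hab0
  rw [← hφ] at hab
  have hdivb : (PowerSeries.X : (ZMod p)⟦X⟧) ^ (2 * m) ∣ ((a.map φ : (ZMod p)[X]) : (ZMod p)⟦X⟧) -
      ((b.map φ : (ZMod p)[X]) : (ZMod p)⟦X⟧) * sb := by
    obtain ⟨q, hq⟩ := h5
    refine ⟨PowerSeries.map φ q, ?_⟩
    have := congrArg (PowerSeries.map φ) hq
    rw [map_sub, map_mul, map_mul, map_pow, PowerSeries.map_X, ← Polynomial.polynomial_map_coe,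
      ← Polynomial.polynomial_map_coe] at this
    exact this
  have hNb : (a.map φ) ^ 2 - (b.map φ) ^ 2 * F.map φ = C (φ c) * X ^ (2 * m) := by
    have := congrArg (Polynomial.map φ) h4
    rwa [Polynomial.map_sub, Polynomial.map_mul, Polynomial.map_pow, Polynomial.map_pow, Polynomial.map_mul, map_C,
      Polynomial.map_pow, map_X] at this
  have hcb : φ c ≠ 0 := by
    intro h0
    rw [h0, C_0, zero_mul] at hNb
    by_cases hb0 : b.map φ = 0
    · rw [hb0, zero_pow two_ne_zero, zero_mul, sub_zero] at hNb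
      exact hab ⟨pow_eq_zero_iff two_ne_zero |>.1 hNb, hb0⟩
    · have h6 : (b.map φ) ^ 2 ∣ (a.map φ) ^ 2 := ⟨F.map φ, by linear_combination hNb⟩
      obtain ⟨R, hR⟩ := (UniqueFactorizationMonoid.pow_dvd_pow_iff_dvd two_ne_zero).1 h6
      apply hns R
      have h3 : (b.map φ) ^ 2 * R ^ 2 = (b.map φ) ^ 2 * F.map φ := by
        rw [← mul_pow, ← hR]
        linear_combination hNb
      exact mul_left_cancel₀ (pow_ne_zero _ hb0) h3
  have hUb : IsU (F.map φ) sb n m (a.map φ) (b.map φ) :=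
    ⟨natDegree_map_le.trans h1, by have := natDegree_map_le (f := φ) (p := b); omega,
      (unit_coeff hsb2 hsb0 hm1 hcb hNb hdivb).2, ⟨_, hcb, hNb⟩, hdivb⟩
  obtain ⟨g0, hg0, hg0u⟩ := small_unit hp2 hsb2 hsb0 hn hFb hns
  have hex : ∃ g, HasU (F.map φ) sb n g := ⟨g0, hg0u⟩
  set g := Nat.find hex with hg
  have hgu : HasU (F.map φ) sb n g := Nat.find_spec hex
  have hgmin : ∀ e, HasU (F.map φ) sb n e → g ≤ e := fun e he => Nat.find_min' hex he
  have hgm : g ∣ m := dvd_of_least hp2 hsb2 hsb0 hn hFb hgu hgmin m ⟨_, _, hUb⟩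
  obtain ⟨k, hk⟩ := hgm
  have hk0 : k ≠ 0 := by
    rintro rfl
    rw [mul_zero] at hk
    omega
  have hkp : ∀ {l : ℕ}, Nat.Prime l → l ∣ k → l = p := by
    intro l hl hlk
    by_contra hlp
    obtain ⟨k', hk'⟩ := hlk
    have hk'0 : 1 ≤ k' := by
      rcases Nat.eq_zero_or_pos k' with h | h
      · rw [h, mul_zero] at hk'
        exact absurd hk' hk0
      · exact h
    have hml : m = l * (k' * g) := by
      rw [hk, hk']
      ring
    have hUd : HasU (F.map φ) sb n (k' * g) := hgu.mul hsb2 hsb0 hn hFb hk'0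
    obtain ⟨a1, b1, hab1⟩ := hUd
    have hlz : (l : ZMod p) ≠ 0 := by
      rw [Ne, ZMod.natCast_eq_zero_iff]
      intro h
      exact hlp ((Nat.prime_dvd_prime_iff_eq Fact.out hl).1 h).symm
    have hbz : ((b.coeff 0 : ℤ) : ZMod p) ≠ 0 := by
      have := (unit_coeff hsb2 hsb0 hm1 hcb hNb hdivb).2
      rwa [coeff_map] at this
    obtain ⟨P, Q, c', hQ, hc', hP1, hQ1, hPQ⟩ := key hp2 hs hs0 hn hF hml hl.one_lt.le hlz h1 h2 h5 hbz hab1
    have hp2' : (2 : ℤ) ≠ 0 := two_ne_zero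
    obtain ⟨m', hm', hm'u⟩ := orient hp2' hs hs0 hn _ P Q c' hP1 hQ1 hQ hc' hPQ
    have h6 := hmin m' hm'u
    have h7 := hl.two_le
    have h8 : 1 ≤ k' * g := Nat.mul_pos hk'0 (hgu.pos hn)
    nlinarith
  exact ⟨g, _, (hgmin g0 hg0u).trans hg0, hk.trans (congrArg (g * ·) (Nat.eq_prime_pow_of_unique_prime_dvd hk0 hkp))⟩

/-- the least degree of a solution is bounded -/
theorem degree_bound {p q : ℕ} [Fact p.Prime] [Fact q.Prime] (hpq : p ≠ q) (hp2 : (2 : ZMod p) ≠ 0) (hq2 : (2 : ZMod q) ≠ 0)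
    (hs : s ^ 2 = (F : ℤ⟦X⟧)) (hs0 : PowerSeries.constantCoeff s = 1) (hn : 1 ≤ n) (hF : F.natDegree ≤ 2 * n)
    (hns : ∀ R : (ZMod p)[X], R ^ 2 ≠ F.map (Int.castRingHom (ZMod p)))
    (hns' : ∀ R : (ZMod q)[X], R ^ 2 ≠ F.map (Int.castRingHom (ZMod q))) (hex : ∃ m, HasU F s n m) :
    ∃ m, m ≤ B n p * B n q ∧ HasU F s n m := by
  classical
  set m := Nat.find hex with hm
  have hmu : HasU F s n m := Nat.find_spec hex
  have hmin : ∀ e, HasU F s n e → m ≤ e := fun e he => Nat.find_min' hex he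
  obtain ⟨g, e, hg, hge⟩ := least_mod hp2 hs hs0 hn hF hns hmu hmin
  obtain ⟨g', e', hg', hge'⟩ := least_mod hq2 hs hs0 hn hF hns' hmu hmin
  refine ⟨m, ?_, hmu⟩
  have h1 : p ^ e ∣ g' * q ^ e' := by
    rw [← hge', hge]
    exact Dvd.intro_left _ rfl
  have h2 : Nat.Coprime (p ^ e) (q ^ e') :=
    Nat.Coprime.pow _ _ ((Nat.coprime_primes Fact.out Fact.out).2 hpq)
  have h3 : p ^ e ∣ g' := h2.dvd_of_dvd_mul_right h1
  have hg'0 : 0 < g' := by
    rcases Nat.eq_zero_or_pos g' with h | h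
    · rw [h, zero_mul] at hge'
      have := hmu.pos hn
      omega
    · exact h
  have h4 := Nat.le_of_dvd hg'0 h3
  calc m = g * p ^ e := hge
    _ ≤ B n p * B n q := Nat.mul_le_mul hg (h4.trans hg')

end Pool.Agent.X35.PE
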