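import Pool.Agent.X35.PE.Small

/-! Counting the members of a family whose Pell equation is solvable. -/

set_option autoImplicit false

open Polynomial

namespace Pool.Agent.X35.PE

open scoped PowerSeries

lemma B_le {n p : ℕ} (hn : 1 ≤ n) {K : ℕ} (hp1 : 1 ≤ p) (hp : p ≤ 4 * (K + 3) ^ 2) :
    B n p ≤ 4 * n * (2 * (K + 3)) ^ (6 * n) := by
  have h1 : p ^ (3 * n) ≤ (2 * (K + 3)) ^ (6 * n) := by
    calc p ^ (3 * n) ≤ (4 * (K + 3) ^ 2) ^ (3 * n) := Nat.pow_le_pow_left hp _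
      _ = ((2 * (K + 3)) ^ 2) ^ (3 * n) := by ring
      _ = (2 * (K + 3)) ^ (6 * n) := by rw [← pow_mul]; congr 1; ring
  have h2 : 1 ≤ p ^ (3 * n) := Nat.one_le_pow _ _ hp1
  rw [B]
  calc 2 * (n * (p ^ (3 * n) + 1)) ≤ 2 * (n * (2 * p ^ (3 * n))) := by
        apply Nat.mul_le_mul_left
        apply Nat.mul_le_mul_left
        omega
    _ = 4 * n * p ^ (3 * n) := by ring
    _ ≤ 4 * n * (2 * (K + 3)) ^ (6 * n) := Nat.mul_le_mul_left _ h1

/-- in a family the least degree of a solution is small -/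
lemma small_degree {r n : ℕ} (hn : 1 ≤ n) {f : (MvPolynomial (Fin r) ℤ)[X]} (hf : f.natDegree ≤ 2 * n)
    (hf1 : f.coeff (2 * n) = 1) : ∃ C : ℝ, 0 ≤ C ∧ ∃ E : ℕ, ∀ T : ℝ, 1 ≤ T → ∀ σ : Fin r → ℤ,
      (∀ j, |(σ j : ℝ)| ≤ T) → Pell (f.map (MvPolynomial.eval σ)) →
      ∃ m : ℕ, (m : ℝ) ≤ C * (1 + Real.log T) ^ E ∧
        HasU (Fp n (f.map (MvPolynomial.eval σ))) (sq n (f.map (MvPolynomial.eval σ))) n m := by
  classical
  choose Cf hCf kf hbd using fun i : ℕ => eval_le (PowerSeries.coeff i (sq n f))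
  set C0 : ℝ := 1 + ∑ i ∈ Finset.range (2 * n + 1), Cf i with hC0
  set k0 : ℕ := ∑ i ∈ Finset.range (2 * n + 1), kf i with hk0
  have hC01 : 1 ≤ C0 := by
    have : 0 ≤ ∑ i ∈ Finset.range (2 * n + 1), Cf i := Finset.sum_nonneg fun i _ => hCf i
    linarith
  have hlog2 : 0 < Real.log 2 := Real.log_pos (by norm_num)
  set A : ℝ := 4 + (Real.log C0 + k0) / Real.log 2 with hA
  have hA0 : 0 ≤ A := by
    have := Real.log_nonneg hC01
    positivity
  refine ⟨(4 * n * (2 * A) ^ (6 * n)) ^ 2, by positivity, 12 * n, fun T hT σ hσ hP => ?_⟩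
  set fσ : ℤ[X] := f.map (MvPolynomial.eval σ) with hfσ
  have hfσd : fσ.natDegree ≤ 2 * n := natDegree_map_le.trans hf
  have hfσ1 : fσ.coeff (2 * n) = 1 := by rw [hfσ, coeff_map, hf1, map_one]
  have hs := sq_sq hfσ1
  have hs0 := sq_zero n fσ
  have hF := Fp_deg hfσd
  obtain ⟨M, P, Q, c, h1, h2, h3, h4, h5⟩ := sol_of_pell (by norm_num : (4 : ℤ) ≠ 0) hfσd hP
  obtain ⟨m0, _, hm0⟩ := orient two_ne_zero hs hs0 hn M P Q c h1 h2 h3 h4 h5
  obtain ⟨i, hi1, hi2, hi3⟩ := exists_coeff hs hs0 hn hF hm0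
  set N : ℤ := PowerSeries.coeff i (sq n fσ) with hN
  have hNe : N = MvPolynomial.eval σ (PowerSeries.coeff i (sq n f)) := by
    rw [hN, hfσ, ← sq_map, PowerSeries.coeff_map]
  have hir : i ∈ Finset.range (2 * n + 1) := Finset.mem_range.2 (by omega)
  have hNb : |(N : ℝ)| ≤ C0 * T ^ k0 := by
    rw [hNe]
    refine (hbd i T hT σ hσ).trans ?_
    have h6 : Cf i ≤ C0 := by
      have := Finset.single_le_sum (f := Cf) (fun i _ => hCf i) hir
      linarith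
    have h7 : kf i ≤ k0 := Finset.single_le_sum (f := kf) (fun i _ => Nat.zero_le _) hir
    exact mul_le_mul h6 (pow_le_pow_right₀ hT h7) (by positivity) (by linarith)
  have hCT : 1 ≤ C0 * T ^ k0 := by
    have := one_le_pow₀ (n := k0) hT
    nlinarith
  set K : ℕ := ⌈Real.logb 2 (C0 * T ^ k0)⌉₊ with hK
  have hN2 : N.natAbs ≤ 2 ^ K := by
    have h6 : ((N.natAbs : ℕ) : ℝ) ≤ ((2 ^ K : ℕ) : ℝ) := by
      rw [Nat.cast_natAbs, Int.cast_abs]
      refine hNb.trans ?_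
      push_cast
      have h2K : (2 : ℝ) ^ K = (2 : ℝ) ^ (K : ℝ) := (Real.rpow_natCast 2 K).symm
      rw [h2K, ← Real.logb_le_iff_le_rpow (by norm_num) (by linarith)]
      exact Nat.le_ceil _
    exact_mod_cast h6
  obtain ⟨p, q, hp, hq, hpq, hp2, hq2, hpN, hqN, hpK, hqK⟩ := two_primes hi3 hN2
  have := Fact.mk hp
  have := Fact.mk hq
  have h2p : ∀ p : ℕ, p.Prime → p ≠ 2 → (2 : ZMod p) ≠ 0 := by
    intro p hp hp2 h
    have h6 : ((2 : ℕ) : ZMod p) = 0 := by exact_mod_cast h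
    rw [ZMod.natCast_eq_zero_iff] at h6
    exact hp2 ((Nat.prime_dvd_prime_iff_eq hp Nat.prime_two).1 h6)
  obtain ⟨m, hm, hmu⟩ := degree_bound hpq (h2p p hp hp2) (h2p q hq hq2) hs hs0 hn hF (nonsq_mod hs hi1 hF hpN)
    (nonsq_mod hs hi1 hF hqN) ⟨m0, hm0⟩
  refine ⟨m, ?_, hmu⟩
  have hmK : m ≤ (4 * n * (2 * (K + 3)) ^ (6 * n)) ^ 2 := by
    refine hm.trans ?_
    rw [pow_two]
    exact Nat.mul_le_mul (B_le hn hp.one_lt.le hpK) (B_le hn hq.one_lt.le hqK)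
  have hT0 : 0 ≤ Real.log T := Real.log_nonneg hT
  have hKA : ((K : ℝ) + 3) ≤ A * (1 + Real.log T) := by
    have h6 : (K : ℝ) ≤ Real.logb 2 (C0 * T ^ k0) + 1 := (Nat.ceil_lt_add_one (Real.logb_nonneg (by norm_num) hCT)).le
    have h7 : Real.logb 2 (C0 * T ^ k0) = (Real.log C0 + k0 * Real.log T) / Real.log 2 := by
      rw [Real.logb, Real.log_mul (by linarith) (by positivity), Real.log_pow]
    rw [h7] at h6
    have h8 : 0 ≤ Real.log C0 := Real.log_nonneg hC01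
    have h9 : (Real.log C0 + k0 * Real.log T) / Real.log 2 ≤ (Real.log C0 + k0) / Real.log 2 * (1 + Real.log T) := by
      rw [div_mul_eq_mul_div]
      apply div_le_div_of_nonneg_right _ hlog2.le
      nlinarith [mul_nonneg h8 hT0, (Nat.cast_nonneg k0 : (0 : ℝ) ≤ k0)]
    rw [hA]
    nlinarith
  calc (m : ℝ) ≤ (((4 * n * (2 * (K + 3)) ^ (6 * n)) ^ 2 : ℕ) : ℝ) := by exact_mod_cast hmK
    _ = (4 * n * (2 * ((K : ℝ) + 3)) ^ (6 * n)) ^ 2 := by push_cast; ring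
    _ ≤ (4 * n * (2 * (A * (1 + Real.log T))) ^ (6 * n)) ^ 2 := by
        gcongr
    _ = (4 * n * (2 * A) ^ (6 * n)) ^ 2 * (1 + Real.log T) ^ (12 * n) := by
        have : 2 * (A * (1 + Real.log T)) = (2 * A) * (1 + Real.log T) := by ring
        rw [this, mul_pow (2 * A)]
        ring

/-- zeros of a polynomial in a box -/
lemma zeros_box {r : ℕ} {g : MvPolynomial (Fin (r + 1)) ℤ} (hg : g ≠ 0) (S : Finset ℤ) (hS : S.Nonempty) :
    ((Fintype.piFinset fun _ : Fin (r + 1) => S).filter fun σ => MvPolynomial.eval σ g = 0).card ≤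
      g.totalDegree * S.card ^ r := by
  have h1 := MvPolynomial.schwartz_zippel_totalDegree hg S
  have hc : (0 : ℚ≥0) < (S.card : ℚ≥0) := by exact_mod_cast hS.card_pos
  rw [div_le_div_iff₀ (by positivity) hc, pow_succ, ← mul_assoc] at h1
  have h2 := le_of_mul_le_mul_right h1 hc
  exact_mod_cast h2

/-- the members of a family whose Pell equation is solvable -/
def Bad {r : ℕ} (f : (MvPolynomial (Fin r) ℤ)[X]) (T : ℝ) : Set (Fin r → ℤ) :=
  {σ | (∀ j, |(σ j : ℝ)| ≤ T) ∧ Pell (f.map (MvPolynomial.eval σ))}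

/-- if `F` is a square then no member has a solution -/
lemma no_sol_of_square {r n : ℕ} (hn : 1 ≤ n) {f : (MvPolynomial (Fin r) ℤ)[X]} (hf : f.natDegree ≤ 2 * n)
    (hf1 : f.coeff (2 * n) = 1) {R : (MvPolynomial (Fin r) ℤ)[X]} (hR : R ^ 2 = Fp n f) (σ : Fin r → ℤ) :
    ¬ Pell (f.map (MvPolynomial.eval σ)) := by
  intro hP
  set fσ : ℤ[X] := f.map (MvPolynomial.eval σ) with hfσ
  have hfσd : fσ.natDegree ≤ 2 * n := natDegree_map_le.trans hf
  have hfσ1 : fσ.coeff (2 * n) = 1 := by rw [hfσ, coeff_map, hf1, map_one]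
  have hs := sq_sq hfσ1
  have hs0 := sq_zero n fσ
  have hF := Fp_deg hfσd
  obtain ⟨M, P, Q, c, h1, h2, h3, h4, h5⟩ := sol_of_pell (by norm_num : (4 : ℤ) ≠ 0) hfσd hP
  obtain ⟨m0, _, hm0⟩ := orient two_ne_zero hs hs0 hn M P Q c h1 h2 h3 h4 h5
  obtain ⟨i, hi1, hi2, hi3⟩ := exists_coeff hs hs0 hn hF hm0
  set R' : ℤ[X] := R.map (MvPolynomial.eval σ) with hR'
  have hR2 : R' ^ 2 = Fp n fσ := by
    rw [hR', ← Polynomial.map_pow, hR, Fp_map]
  have hdeg : R'.natDegree ≤ n := by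
    have h2 : (R' ^ 2).natDegree ≤ 2 * n := by
      rw [hR2]
      exact hF
    rw [natDegree_pow] at h2
    omega
  apply hi3
  have h3 : ((R' : ℤ⟦X⟧) - sq n fσ) * ((R' : ℤ⟦X⟧) + sq n fσ) = 0 := by
    have h6 : (R' : ℤ⟦X⟧) ^ 2 = (sq n fσ) ^ 2 := by rw [hs, ← hR2, Polynomial.coe_pow]
    linear_combination h6
  have h4 : PowerSeries.coeff i (R' : ℤ⟦X⟧) = 0 := by
    rw [Polynomial.coeff_coe]
    exact coeff_eq_zero_of_natDegree_lt (by omega)
  rcases mul_eq_zero.1 h3 with h | h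
  · rw [← sub_eq_zero.1 h, h4]
  · have := congrArg (PowerSeries.coeff i) (eq_neg_of_add_eq_zero_right h)
    rw [this, map_neg, h4, neg_zero]

/-- the number of members whose Pell equation is solvable -/
theorem count {r n : ℕ} (hn : 1 ≤ n) {f : (MvPolynomial (Fin (r + 1)) ℤ)[X]} (hf : f.natDegree ≤ 2 * n)
    (hf1 : f.coeff (2 * n) = 1) (hnp : ¬ Pell f) : ∃ C : ℝ, 0 ≤ C ∧ ∃ E : ℕ, ∀ T : ℝ, 1 ≤ T →
      (Bad f T).Finite ∧ ((Bad f T).ncard : ℝ) ≤ C * (1 + Real.log T) ^ E * T ^ r := by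
  classical
  by_cases hsq : ∃ R : (MvPolynomial (Fin (r + 1)) ℤ)[X], R ^ 2 = Fp n f
  · obtain ⟨R, hR⟩ := hsq
    refine ⟨0, le_rfl, 0, fun T _ => ?_⟩
    have h0 : Bad f T = ∅ := Set.eq_empty_of_forall_notMem fun σ hσ => no_sol_of_square hn hf hf1 hR σ hσ.2
    rw [h0]
    exact ⟨Set.finite_empty, by simp⟩
  have hG : ∀ m, n ≤ m → Gm (sq n f) n m ≠ 0 := by
    intro m hm h
    obtain ⟨P, Q, c, hQ, h1, h2, h3⟩ := sol_of_Gm (sq_sq hf1) hn hm (Fp_deg hf) h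
    by_cases hc : c = 0
    · rw [hc, C_0, zero_mul] at h3
      have h6 : Q ^ 2 ∣ P ^ 2 := ⟨Fp n f, by linear_combination h3⟩
      obtain ⟨R, hR⟩ := (UniqueFactorizationMonoid.pow_dvd_pow_iff_dvd two_ne_zero).1 h6
      apply hsq
      refine ⟨R, ?_⟩
      have h3 : Q ^ 2 * R ^ 2 = Q ^ 2 * Fp n f := by
        rw [← mul_pow, ← hR]
        linear_combination h3
      exact mul_left_cancel₀ (pow_ne_zero _ hQ) h3
    · refine hnp (pell_of ?_ hm hf h1 h2 hQ hc h3)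
      intro h4
      have h5 := congrArg (MvPolynomial.eval 0) h4
      rw [map_ofNat, map_zero] at h5
      norm_num at h5
  obtain ⟨C, hC, E, hsm⟩ := small_degree hn hf hf1
  obtain ⟨D, hD⟩ : ∃ D : ℕ, ∀ i, (f.coeff i).totalDegree ≤ D := by
    refine ⟨∑ i ∈ f.support, (f.coeff i).totalDegree, fun i => ?_⟩
    by_cases hi : i ∈ f.support
    · exact Finset.single_le_sum (f := fun i => (f.coeff i).totalDegree) (fun i _ => Nat.zero_le _) hi
    · rw [notMem_support_iff.1 hi, MvPolynomial.totalDegree_zero]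
      exact Nat.zero_le _
  refine ⟨C ^ 3 * (4 * D) * 3 ^ r, by positivity, 3 * E, fun T hT => ?_⟩
  have hlog : 0 ≤ Real.log T := Real.log_nonneg hT
  set L : ℝ := C * (1 + Real.log T) ^ E with hL
  have hL0 : 0 ≤ L := by positivity
  set S : Finset ℤ := Finset.Icc (-⌊T⌋) ⌊T⌋ with hS
  have hfl : 1 ≤ ⌊T⌋ := Int.le_floor.2 (by exact_mod_cast hT)
  have hScard : (S.card : ℝ) ≤ 3 * T := by
    have h1 : (S.card : ℤ) = 2 * ⌊T⌋ + 1 := by
      rw [hS, Int.card_Icc, Int.toNat_of_nonneg (by omega)]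
      ring
    have h2 : (S.card : ℝ) = 2 * ⌊T⌋ + 1 := by exact_mod_cast h1
    rw [h2]
    have := Int.floor_le T
    linarith
  have hSne : S.Nonempty := ⟨0, Finset.mem_Icc.2 ⟨by omega, by omega⟩⟩
  set Z : ℕ → Finset (Fin (r + 1) → ℤ) := fun m =>
    (Fintype.piFinset fun _ : Fin (r + 1) => S).filter fun σ => MvPolynomial.eval σ (Gm (sq n f) n m) = 0 with hZ
  have hsub : Bad f T ⊆ (((Finset.Icc n ⌊L⌋₊).biUnion Z : Finset (Fin (r + 1) → ℤ)) : Set (Fin (r + 1) → ℤ)) := by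
    intro σ hσ
    obtain ⟨m, hm, hmu⟩ := hsm T hT σ hσ.1 hσ.2
    rw [Finset.mem_coe, Finset.mem_biUnion]
    have hnm : n ≤ m := by
      obtain ⟨a, b, _, h, _⟩ := hmu
      omega
    refine ⟨m, Finset.mem_Icc.2 ⟨hnm, Nat.le_floor hm⟩, ?_⟩
    rw [hZ, Finset.mem_filter, Fintype.mem_piFinset]
    refine ⟨fun j => ?_, ?_⟩
    · have h1 := abs_le.1 (hσ.1 j)
      rw [hS, Finset.mem_Icc]
      refine ⟨?_, Int.le_floor.2 h1.2⟩
      have h2 : -(σ j) ≤ ⌊T⌋ := Int.le_floor.2 (by push_cast; linarith [h1.1])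
      omega
    · have h1 : (MvPolynomial.eval σ) (Gm (sq n f) n m) = Gm (PowerSeries.map (MvPolynomial.eval σ) (sq n f)) n m :=
        Gm_map (MvPolynomial.eval σ) (sq n f) n m
      rw [h1, sq_map]
      exact Gm_zero hn hmu
  refine ⟨(Finset.finite_toSet _).subset hsub, ?_⟩
  have h1 : (Bad f T).ncard ≤ ((Finset.Icc n ⌊L⌋₊).biUnion Z).card := by
    have := Set.ncard_le_ncard hsub (Finset.finite_toSet _)
    rwa [Set.ncard_coe_finset] at this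
  have h2 : ((Finset.Icc n ⌊L⌋₊).biUnion Z).card ≤ ∑ m ∈ Finset.Icc n ⌊L⌋₊, 4 * D * m ^ 2 * S.card ^ r := by
    refine Finset.card_biUnion_le.trans (Finset.sum_le_sum fun m hm => ?_)
    have hnm := (Finset.mem_Icc.1 hm).1
    exact (zeros_box (hG m hnm) S hSne).trans (Nat.mul_le_mul_right _ (Gm_deg hn hnm hD))
  calc ((Bad f T).ncard : ℝ) ≤ ((∑ m ∈ Finset.Icc n ⌊L⌋₊, 4 * D * m ^ 2 * S.card ^ r : ℕ) : ℝ) := by
        exact_mod_cast h1.trans h2
    _ = ∑ m ∈ Finset.Icc n ⌊L⌋₊, 4 * (D : ℝ) * (m : ℝ) ^ 2 * (S.card : ℝ) ^ r := by push_cast; rfl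
    _ ≤ ∑ _m ∈ Finset.Icc n ⌊L⌋₊, 4 * (D : ℝ) * L ^ 2 * (3 * T) ^ r := by
        refine Finset.sum_le_sum fun m hm => ?_
        have h3 : (m : ℝ) ≤ L := (Nat.cast_le.2 (Finset.mem_Icc.1 hm).2).trans (Nat.floor_le hL0)
        gcongr
    _ = ((Finset.Icc n ⌊L⌋₊).card : ℝ) * (4 * (D : ℝ) * L ^ 2 * (3 * T) ^ r) := by
        rw [Finset.sum_const, nsmul_eq_mul]
    _ ≤ L * (4 * (D : ℝ) * L ^ 2 * (3 * T) ^ r) := by
        have h3 : ((Finset.Icc n ⌊L⌋₊).card : ℝ) ≤ L := by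
          rw [Nat.card_Icc]
          refine le_trans ?_ (Nat.floor_le hL0)
          exact_mod_cast (by omega : ⌊L⌋₊ + 1 - n ≤ ⌊L⌋₊)
        exact mul_le_mul_of_nonneg_right h3 (by positivity)
    _ = C ^ 3 * (4 * D) * 3 ^ r * (1 + Real.log T) ^ (3 * E) * T ^ r := by
        rw [hL, mul_pow 3 T]
        ring

end Pool.Agent.X35.PE
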