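import Pool.Agent.X35.PE.Units

/-! Small units over finite fields. -/

set_option autoImplicit false

open Polynomial

namespace Pool.Agent.X35.PE

open scoped PowerSeries

lemma natDegree_refl_le {A : Type*} [CommRing A] {N : ℕ} {g : A[X]} (hg : g.natDegree ≤ N) :
    (reflect N g).natDegree ≤ N := by
  rw [natDegree_le_iff_coeff_eq_zero]
  intro i hi
  rw [coeff_reflect, revAt_eq_self_of_lt hi]
  exact coeff_eq_zero_of_natDegree_lt (by omega)

section
variable {A : Type*} [Field A] {F : A[X]} {s : A⟦X⟧} {n : ℕ}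

/-- the approximant of degree `D`, read at infinity -/
lemma approx (hs : s ^ 2 = (F : A⟦X⟧)) (hn : 1 ≤ n) (hF : F.natDegree ≤ 2 * n) (hns : ∀ R : A[X], R ^ 2 ≠ F)
    {D : ℕ} (hD : n ≤ D) :
    ∃ a b r : A[X], b ≠ 0 ∧ r ≠ 0 ∧ a.natDegree ≤ D ∧ b.natDegree + n ≤ D ∧ r.natDegree ≤ n - 1 ∧
      a ^ 2 - b ^ 2 * (reflect (2 * n) F) = r ∧
      (PowerSeries.X : A⟦X⟧) ^ (2 * D - n + 1) ∣ ((reflect D a : A[X]) : A⟦X⟧) - ((reflect (D - n) b : A[X]) : A⟦X⟧) * s ∧
      (reflect D a) ^ 2 - (reflect (D - n) b) ^ 2 * F ≠ 0 := by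
  obtain ⟨Q, hQ0, hQd, hQc⟩ := pade s hn hD
  set P : A[X] := PowerSeries.trunc (D + 1) ((Q : A⟦X⟧) * s) with hP
  have hPdeg : P.natDegree ≤ D := by
    rw [hP]
    have := PowerSeries.natDegree_trunc_lt ((Q : A⟦X⟧) * s) D
    omega
  have hPQ : (PowerSeries.X : A⟦X⟧) ^ (2 * D - n + 1) ∣ (P : A⟦X⟧) - Q * s := by
    rw [PowerSeries.X_pow_dvd_iff]
    intro i hi
    rw [map_sub, Polynomial.coeff_coe, hP, PowerSeries.coeff_trunc]
    split_ifs with h
    · rw [sub_self]
    · rw [hQc i (by omega) (by omega), sub_zero]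
  have hNdvd : (PowerSeries.X : A⟦X⟧) ^ (2 * D - n + 1) ∣ ((P ^ 2 - Q ^ 2 * F : A[X]) : A⟦X⟧) := by
    have : ((P ^ 2 - Q ^ 2 * F : A[X]) : A⟦X⟧) = ((P : A⟦X⟧) - (Q : A⟦X⟧) * s) * ((P : A⟦X⟧) + (Q : A⟦X⟧) * s) := by
      push_cast
      rw [← hs]
      ring
    rw [this]
    exact Dvd.dvd.mul_right hPQ _
  have hN0 : P ^ 2 - Q ^ 2 * F ≠ 0 := by
    intro h
    have h1 : Q ^ 2 ∣ P ^ 2 := ⟨F, by linear_combination h⟩
    have h2 : Q ∣ P := (UniqueFactorizationMonoid.pow_dvd_pow_iff_dvd two_ne_zero).1 h1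
    obtain ⟨R, hR⟩ := h2
    apply hns R
    have h3 : Q ^ 2 * R ^ 2 = Q ^ 2 * F := by
      rw [← mul_pow, ← hR]
      linear_combination h
    exact mul_left_cancel₀ (pow_ne_zero _ hQ0) h3
  obtain ⟨R, hR, hRd⟩ := exists_quot hNdvd
  have hR0 : R ≠ 0 := fun h => hN0 (by rw [hR, h, mul_zero])
  have hNdeg : (P ^ 2 - Q ^ 2 * F).natDegree ≤ 2 * D := by
    refine (natDegree_sub_le _ _).trans (max_le ?_ ?_)
    · refine natDegree_pow_le.trans ?_
      omega
    · refine natDegree_mul_le.trans ?_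
      have h4 := natDegree_pow_le (p := Q) (n := 2)
      omega
  have hRdeg : R.natDegree ≤ n - 1 := by
    have := hRd hR0
    omega
  have hrefldeg : ∀ (N : ℕ) (g : A[X]), g.natDegree ≤ N → (reflect N g).natDegree ≤ N := fun N g hg => by
    rw [natDegree_le_iff_coeff_eq_zero]
    intro i hi
    rw [coeff_reflect, revAt_eq_self_of_lt hi]
    exact coeff_eq_zero_of_natDegree_lt (by omega)
  refine ⟨reflect D P, reflect (D - n) Q, reflect (n - 1) R, ?_, ?_, hrefldeg _ _ hPdeg, ?_, hrefldeg _ _ hRdeg, ?_, ?_, ?_⟩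
  · rwa [Ne, reflect_eq_zero_iff]
  · rwa [Ne, reflect_eq_zero_iff]
  · have := hrefldeg (D - n) Q (by omega)
    omega
  · have h1 : reflect (2 * D) (P ^ 2 - Q ^ 2 * F) = (reflect D P) ^ 2 - (reflect (D - n) Q) ^ 2 * (reflect (2 * n) F) := by
      rw [reflect_sub]
      congr 1
      · rw [pow_two, pow_two, two_mul, reflect_mul _ _ hPdeg hPdeg]
      · have h2 : 2 * D = ((D - n) + (D - n)) + 2 * n := by omega
        rw [h2, pow_two, pow_two, reflect_mul _ _ (natDegree_mul_le.trans (by omega)) hF,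
          reflect_mul _ _ (by omega) (by omega)]
    rw [← h1, hR]
    have h2 : 2 * D = (2 * D - n + 1) + (n - 1) := by omega
    rw [h2, show 2 * D - n + 1 + (n - 1) - n + 1 = 2 * D - n + 1 by omega,
      reflect_mul _ _ (by rw [natDegree_X_pow]) hRdeg]
    have h3 : reflect (2 * D - n + 1) (X ^ (2 * D - n + 1) : A[X]) = 1 := by
      rw [reflect_monomial, revAt_le le_rfl, Nat.sub_self, pow_zero]
    rw [h3, one_mul]
  · rw [reflect_reflect, reflect_reflect]
    exact hPQ
  · rw [reflect_reflect, reflect_reflect]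
    exact hN0

end

/-- small units over `Z/p` -/
theorem small_unit {p : ℕ} [Fact p.Prime] (hp2 : (2 : ZMod p) ≠ 0) {F : (ZMod p)[X]} {s : (ZMod p)⟦X⟧} {n : ℕ}
    (hs : s ^ 2 = (F : (ZMod p)⟦X⟧))
    (hs0 : PowerSeries.constantCoeff s = 1) (hn : 1 ≤ n) (hF : F.natDegree ≤ 2 * n)
    (hns : ∀ R : (ZMod p)[X], R ^ 2 ≠ F) :
    ∃ g, g ≤ 2 * (n * (p ^ (3 * n) + 1)) ∧ HasU F s n g := by
  classical
  choose! a b r hb0 hr0 had hbd hrd hN hap hN0 using fun (D : ℕ) (hD : n ≤ D) => approx hs hn hF hns hD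
  set f : (ZMod p)[X] := reflect (2 * n) F with hf
  -- pigeonhole
  let Dj : ℕ → ℕ := fun j => n * (j + 1)
  let cls : ℕ → (Fin n → ZMod p) × (Fin n → ZMod p) × (Fin n → ZMod p) := fun j =>
    (fun i => (r (Dj j)).coeff i, fun i => ((a (Dj j)) % (r (Dj j))).coeff i, fun i => ((b (Dj j)) % (r (Dj j))).coeff i)
  have hcard : Fintype.card ((Fin n → ZMod p) × (Fin n → ZMod p) × (Fin n → ZMod p)) < (Finset.range (p ^ (3 * n) + 1)).card := by
    rw [Finset.card_range, Fintype.card_prod, Fintype.card_prod, Fintype.card_fun, ZMod.card, Fintype.card_fin]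
    have : p ^ n * (p ^ n * p ^ n) = p ^ (3 * n) := by ring
    rw [this]
    exact Nat.lt_succ_self _
  obtain ⟨i, hi, j, hj, hij, hcl⟩ := Finset.exists_ne_map_eq_of_card_lt_of_maps_to
    (s := Finset.range (p ^ (3 * n) + 1)) (t := (Finset.univ : Finset ((Fin n → ZMod p) × (Fin n → ZMod p) × (Fin n → ZMod p))))
    (by rw [Finset.card_univ]; exact hcard) (f := cls) (fun _ _ => Finset.mem_univ _)
  -- WLOG i < j
  wlog hlt : i < j generalizing i j
  · exact this j hj i hi hij.symm hcl.symm (by omega)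
  have hDn : ∀ j, n ≤ Dj j := fun j => Nat.le_mul_of_pos_right n (by omega)
  have hDij : Dj i + n ≤ Dj j := by
    show n * (i + 1) + n ≤ n * (j + 1)
    have : n * (i + 1) + n = n * (i + 2) := by ring
    rw [this]
    exact Nat.mul_le_mul_left n (by omega)
  set D := Dj i with hD
  set E := Dj j with hE
  have hcl1 : r D = r E := by
    have h1 := congrArg Prod.fst hcl
    ext k
    by_cases hk : k < n
    · exact congrFun h1 ⟨k, hk⟩
    · rw [coeff_eq_zero_of_natDegree_lt (by have := hrd D (hDn i); omega),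
        coeff_eq_zero_of_natDegree_lt (by have := hrd E (hDn j); omega)]
  have hmodlt : ∀ (g : (ZMod p)[X]) (D' : ℕ) (hD' : n ≤ D') (k : ℕ), ¬ k < n → (g % r D').coeff k = 0 := by
    intro g D' hD' k hk
    by_cases h0 : g % r D' = 0
    · rw [h0, coeff_zero]
    · apply coeff_eq_zero_of_degree_lt
      have h1 : (g % r D').degree < (r D').degree := EuclideanDomain.mod_lt g (hr0 D' hD')
      refine h1.trans_le ?_
      rw [degree_eq_natDegree (hr0 D' hD')]
      exact_mod_cast (hrd D' hD').trans (by omega)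
  have hcl2 : a D % r D = a E % r E := by
    have h1 := congrArg (fun x => x.2.1) hcl
    ext k
    by_cases hk : k < n
    · exact congrFun h1 ⟨k, hk⟩
    · rw [hmodlt _ D (hDn i) k hk, hmodlt _ E (hDn j) k hk]
  have hcl3 : b D % r D = b E % r E := by
    have h1 := congrArg (fun x => x.2.2) hcl
    ext k
    by_cases hk : k < n
    · exact congrFun h1 ⟨k, hk⟩
    · rw [hmodlt _ D (hDn i) k hk, hmodlt _ E (hDn j) k hk]
  rw [← hcl1] at hcl2 hcl3
  set ρ := r D with hρ
  have ha : ρ ∣ a E - a D := by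
    have h1 := EuclideanDomain.div_add_mod (a D) ρ
    have h2 := EuclideanDomain.div_add_mod (a E) ρ
    refine ⟨a E / ρ - a D / ρ, ?_⟩
    rw [hcl2] at h1
    linear_combination h1 - h2
  have hb : ρ ∣ b E - b D := by
    have h1 := EuclideanDomain.div_add_mod (b D) ρ
    have h2 := EuclideanDomain.div_add_mod (b E) ρ
    refine ⟨b E / ρ - b D / ρ, ?_⟩
    rw [hcl3] at h1
    linear_combination h1 - h2
  have hND : a D ^ 2 - b D ^ 2 * f = ρ := hN D (hDn i)
  have hNE : a E ^ 2 - b E ^ 2 * f = ρ := by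
    have := hN E (hDn j)
    rw [← hcl1] at this
    exact this
  have hρ0 : ρ ≠ 0 := hr0 D (hDn i)
  obtain ⟨x, hx⟩ := ha
  obtain ⟨y, hy⟩ := hb
  -- the quotient
  set U : (ZMod p)[X] := 1 + (x * a D - y * b D * f) with hU
  set V : (ZMod p)[X] := y * a D - x * b D with hV
  have hUρ : ρ * U = a E * a D - b E * b D * f := by
    rw [hU]
    linear_combination (-(a D)) * hx + (b D * f) * hy - hND
  have hVρ : ρ * V = b E * a D - a E * b D := by
    rw [hV]
    linear_combination (-(a D)) * hy + (b D) * hx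
  have hUV : U ^ 2 - V ^ 2 * f = 1 := by
    have h1 : ρ ^ 2 * (U ^ 2 - V ^ 2 * f) = ρ ^ 2 * 1 := by
      calc ρ ^ 2 * (U ^ 2 - V ^ 2 * f) = (ρ * U) ^ 2 - (ρ * V) ^ 2 * f := by ring
        _ = (a E ^ 2 - b E ^ 2 * f) * (a D ^ 2 - b D ^ 2 * f) := by rw [hUρ, hVρ]; ring
        _ = ρ ^ 2 * 1 := by rw [hND, hNE]; ring
    exact mul_left_cancel₀ (pow_ne_zero _ hρ0) h1
  have hDE : D + n ≤ E := hDij
  have hnD : n ≤ D := hDn i
  have hnE : n ≤ E := hDn j
  have hV0 : V ≠ 0 := by
    intro hV0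
    rw [hV0, mul_zero] at hVρ
    have hε : ∃ ε : ZMod p, ε ≠ 0 ∧ a E = C ε * a D ∧ b E = C ε * b D := by
      rw [hV0] at hUV
      have h1 : U ^ 2 = 1 := by linear_combination hUV
      have h2 : ∃ ε : ZMod p, ε ≠ 0 ∧ U = C ε := by
        have h1' : (U - 1) * (U + 1) = 0 := by linear_combination h1
        rcases mul_eq_zero.1 h1' with h | h
        · exact ⟨1, one_ne_zero, by rw [C_1]; linear_combination h⟩
        · exact ⟨-1, neg_ne_zero.2 one_ne_zero, by rw [C_neg, C_1]; linear_combination h⟩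
      obtain ⟨ε, hε, hUε⟩ := h2
      rw [hUε] at hUρ
      refine ⟨ε, hε, ?_, ?_⟩
      · have h3 : ρ * a E = ρ * (C ε * a D) := by
          linear_combination (-(a E)) * hND - a D * hUρ - b D * f * hVρ
        exact mul_left_cancel₀ hρ0 h3
      · have h3 : ρ * b E = ρ * (C ε * b D) := by
          linear_combination (-(b E)) * hND - b D * hUρ - a D * hVρ
        exact mul_left_cancel₀ hρ0 h3
    obtain ⟨ε, hε, hae, hbe⟩ := hε
    have h1 := hap E hnE
    have h2 : reflect E (a E) = C ε * (reflect D (a D) * X ^ (E - D)) := by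
      rw [hae, reflect_C_mul]
      congr 1
      have : E = D + (E - D) := by omega
      rw [show reflect E (a D) = reflect (D + (E - D)) (a D * 1) by rw [← this, mul_one],
        reflect_mul _ _ (had D hnD) (by rw [natDegree_one]; omega), reflect_one]
    have h3 : reflect (E - n) (b E) = C ε * (reflect (D - n) (b D) * X ^ (E - D)) := by
      rw [hbe, reflect_C_mul]
      congr 1
      have : E - n = (D - n) + (E - D) := by omega
      rw [show reflect (E - n) (b D) = reflect ((D - n) + (E - D)) (b D * 1) by rw [← this, mul_one],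
        reflect_mul _ _ (by have := hbd D hnD; omega) (by rw [natDegree_one]; omega), reflect_one]
    rw [h2, h3] at h1
    have h4 : (PowerSeries.X : (ZMod p)⟦X⟧) ^ (E - D) * (PowerSeries.X : (ZMod p)⟦X⟧) ^ (D + E - n + 1) ∣
        (PowerSeries.X : (ZMod p)⟦X⟧) ^ (E - D) * (PowerSeries.C ε * (((reflect D (a D) : (ZMod p)[X]) : (ZMod p)⟦X⟧) -
          ((reflect (D - n) (b D) : (ZMod p)[X]) : (ZMod p)⟦X⟧) * s)) := by
      rw [← pow_add]
      have : E - D + (D + E - n + 1) = 2 * E - n + 1 := by omega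
      rw [this]
      convert h1 using 1
      push_cast
      ring
    have h5 := xpow_of_C_mul hε ((mul_dvd_mul_iff_left (pow_ne_zero _ PowerSeries.X_ne_zero)).1 h4)
    have h6 : (PowerSeries.X : (ZMod p)⟦X⟧) ^ (2 * D + 1) ∣
        (((reflect D (a D)) ^ 2 - (reflect (D - n) (b D)) ^ 2 * F : (ZMod p)[X]) : (ZMod p)⟦X⟧) := by
      have h7 : (((reflect D (a D)) ^ 2 - (reflect (D - n) (b D)) ^ 2 * F : (ZMod p)[X]) : (ZMod p)⟦X⟧) =
          (((reflect D (a D) : (ZMod p)[X]) : (ZMod p)⟦X⟧) - ((reflect (D - n) (b D) : (ZMod p)[X]) : (ZMod p)⟦X⟧) * s) *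
          (((reflect D (a D) : (ZMod p)[X]) : (ZMod p)⟦X⟧) + ((reflect (D - n) (b D) : (ZMod p)[X]) : (ZMod p)⟦X⟧) * s) := by
        push_cast
        rw [← hs]
        ring
      rw [h7]
      exact Dvd.dvd.mul_right ((pow_dvd_pow _ (by omega)).trans h5) _
    refine hN0 D hnD (poly_zero h6 ?_)
    have h8 := natDegree_refl_le (N := D) (g := a D) (had D hnD)
    have h9 := natDegree_refl_le (N := D - n) (g := b D) (by have := hbd D hnD; omega)
    refine Nat.lt_succ_of_le ((natDegree_sub_le _ _).trans (max_le ?_ ?_))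
    · refine natDegree_pow_le.trans ?_
      omega
    · refine natDegree_mul_le.trans ?_
      have h4 := natDegree_pow_le (p := reflect (D - n) (b D)) (n := 2)
      omega
  -- back to the origin
  have hfdeg : f.natDegree ≤ 2 * n := natDegree_refl_le hF
  have hVdeg : V.natDegree + n ≤ D + E := by
    have h1 : (ρ * V).natDegree = ρ.natDegree + V.natDegree := natDegree_mul hρ0 hV0
    have h2 : (ρ * V).natDegree ≤ max ((b E).natDegree + (a D).natDegree) ((a E).natDegree + (b D).natDegree) := by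
      rw [hVρ]
      exact (natDegree_sub_le _ _).trans (max_le_max natDegree_mul_le natDegree_mul_le)
    have h3 := had D hnD
    have h4 := had E hnE
    have h5 := hbd D hnD
    have h6 := hbd E hnE
    rcases le_max_iff.1 h2 with h | h <;> omega
  have hU0 : U ≠ 0 := by
    intro h
    rw [h, zero_pow two_ne_zero, zero_sub] at hUV
    have h1 : (V ^ 2 * f).natDegree = 0 := by
      have : V ^ 2 * f = -1 := by linear_combination -hUV
      rw [this]
      simp
    have hf0 : f ≠ 0 := by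
      intro h0
      rw [h0, mul_zero, neg_zero] at hUV
      exact zero_ne_one hUV
    rw [natDegree_mul (pow_ne_zero _ hV0) hf0, natDegree_pow] at h1
    -- f is then a constant, and F = f.coeff 0 * X ^ (2 n), contradicting F(0) = 1
    have h2 : f.natDegree = 0 := by omega
    have h3 : F = reflect (2 * n) f := by rw [hf, reflect_reflect]
    have h4 : F.coeff 0 = 1 := by
      have h5 := congrArg PowerSeries.constantCoeff hs
      rw [map_pow, hs0, one_pow, ← PowerSeries.coeff_zero_eq_constantCoeff_apply, Polynomial.coeff_coe] at h5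
      exact h5.symm
    rw [h3, coeff_reflect, revAt_le (by omega), Nat.sub_zero, coeff_eq_zero_of_natDegree_lt (by omega)] at h4
    exact zero_ne_one h4
  have hUdeg : U.natDegree ≤ D + E := by
    have h1 : (ρ * U).natDegree = ρ.natDegree + U.natDegree := natDegree_mul hρ0 hU0
    have h3 := had D hnD
    have h4 := had E hnE
    have h5 := hbd D hnD
    have h6 := hbd E hnE
    have h2 : (ρ * U).natDegree ≤ D + E := by
      rw [hUρ]
      refine (natDegree_sub_le _ _).trans (max_le ?_ ?_)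
      · exact natDegree_mul_le.trans (by omega)
      · refine natDegree_mul_le.trans ?_
        have := natDegree_mul_le (p := b E) (q := b D)
        omega
    omega
  have hfin : (reflect (D + E) U) ^ 2 - (reflect (D + E - n) V) ^ 2 * F = C 1 * X ^ (2 * (D + E)) := by
    have h1 : reflect (2 * (D + E)) (U ^ 2 - V ^ 2 * f) = (reflect (D + E) U) ^ 2 - (reflect (D + E - n) V) ^ 2 * F := by
      rw [reflect_sub]
      congr 1
      · rw [pow_two, pow_two, two_mul, reflect_mul _ _ hUdeg hUdeg]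
      · have h2 : 2 * (D + E) = ((D + E - n) + (D + E - n)) + 2 * n := by omega
        rw [h2, pow_two, pow_two, reflect_mul _ _ (natDegree_mul_le.trans (by omega)) hfdeg,
          reflect_mul _ _ (by omega) (by omega), hf, reflect_reflect]
    rw [← h1, hUV, reflect_one, C_1, one_mul]
  obtain ⟨g, hg, hgu⟩ := orient hp2 hs hs0 hn (D + E) (reflect (D + E) U) (reflect (D + E - n) V) 1
    (natDegree_refl_le hUdeg) (by have := natDegree_refl_le (N := D + E - n) (g := V) (by omega); omega)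
    (by rwa [Ne, reflect_eq_zero_iff]) one_ne_zero hfin
  refine ⟨g, hg.trans ?_, hgu⟩
  have h1 : D ≤ n * (p ^ (3 * n) + 1) := Nat.mul_le_mul_left n (by have := Finset.mem_range.1 hi; omega)
  have h2 : E ≤ n * (p ^ (3 * n) + 1) := Nat.mul_le_mul_left n (by have := Finset.mem_range.1 hj; omega)
  omega

end Pool.Agent.X35.PE
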