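import Pool.Agent.X35.PE.Ser

/-! The determinants which vanish when there is a solution of degree `m`. -/

set_option autoImplicit false

open Polynomial

namespace Pool.Agent.X35.PE

open scoped PowerSeries

/-- the Pell equation `a ^ 2 - f b ^ 2 = c`, `c` a nonzero constant, has a solution with `b ≠ 0` -/
def Pell {R : Type*} [CommRing R] (f : R[X]) : Prop :=
  ∃ (a b : R[X]) (c : R), b ≠ 0 ∧ c ≠ 0 ∧ a ^ 2 - f * b ^ 2 = C c

/-- the linear conditions -/
noncomputable def Hm {R : Type*} [CommRing R] (s : R⟦X⟧) (n m : ℕ) : Matrix (Fin (m - 1)) (Fin (m - n + 1)) R :=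
  fun i e => PowerSeries.coeff (m + 1 + i - e) s

/-- the determinant -/
noncomputable def Gm {R : Type*} [CommRing R] (s : R⟦X⟧) (n m : ℕ) : R := ((Hm s n m).transpose * Hm s n m).det

lemma Gm_map {R S : Type*} [CommRing R] [CommRing S] (φ : R →+* S) (s : R⟦X⟧) (n m : ℕ) :
    φ (Gm s n m) = Gm (PowerSeries.map φ s) n m := by
  have h : (Hm s n m).map φ = Hm (PowerSeries.map φ s) n m := by
    ext i e
    simp [Hm]
  rw [Gm, Gm, RingHom.map_det, ← h]
  congr 1
  rw [RingHom.mapMatrix_apply, Matrix.map_mul, Matrix.transpose_map]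

/-- coefficients of a product with a polynomial of small degree -/
lemma coeff_pol_mul {R : Type*} [CommRing R] {N : ℕ} {Q : R[X]} (hQ : Q.natDegree ≤ N) (s : R⟦X⟧) {i : ℕ} (hi : N ≤ i) :
    PowerSeries.coeff i ((Q : R⟦X⟧) * s) = ∑ e : Fin (N + 1), Q.coeff e * PowerSeries.coeff (i - e) s := by
  conv_lhs => rw [Polynomial.as_sum_range_C_mul_X_pow' (n := N + 1) Q (by omega)]
  have h3 : ((∑ e ∈ Finset.range (N + 1), C (Q.coeff e) * X ^ e : R[X]) : R⟦X⟧) =
      ∑ e ∈ Finset.range (N + 1), ((C (Q.coeff e) * X ^ e : R[X]) : R⟦X⟧) := by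
    simp only [← Polynomial.coeToPowerSeries.ringHom_apply, map_sum]
  rw [h3, Finset.sum_mul, map_sum, Finset.sum_range]
  refine Finset.sum_congr rfl fun e _ => ?_
  rw [Polynomial.coe_mul, Polynomial.coe_C, Polynomial.coe_pow, Polynomial.coe_X, mul_assoc, PowerSeries.coeff_C_mul,
    PowerSeries.coeff_X_pow_mul', if_pos (by have := e.2; omega)]

/-- the determinant vanishes if there is a unit of degree `m` -/
lemma Gm_zero {F : ℤ[X]} {s : ℤ⟦X⟧} {n m : ℕ} (hn : 1 ≤ n) (h : HasU F s n m) : Gm s n m = 0 := by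
  classical
  obtain ⟨a, b, h1, h2, h3, _, h5⟩ := h
  rw [Gm, ← Matrix.exists_mulVec_eq_zero_iff]
  refine ⟨fun e => b.coeff e, fun h => h3 (congrFun h ⟨0, by omega⟩), ?_⟩
  rw [← Matrix.mulVec_mulVec]
  have h6 : (Hm s n m).mulVec (fun e : Fin (m - n + 1) => b.coeff e) = 0 := by
    ext i
    have h7 := PowerSeries.X_pow_dvd_iff.1 h5 (m + 1 + i) (by have := i.2; omega)
    rw [map_sub, Polynomial.coeff_coe, coeff_eq_zero_of_natDegree_lt (by omega), zero_sub, neg_eq_zero,
      coeff_pol_mul (N := m - n) (by omega) s (by omega)] at h7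
    rw [Matrix.mulVec, dotProduct, Pi.zero_apply, ← h7]
    refine Finset.sum_congr rfl fun e _ => ?_
    rw [Hm, mul_comm]
  rw [h6, Matrix.mulVec_zero]

/-- if the determinant vanishes identically, there is a solution over the ring of the parameters -/
lemma sol_of_Gm {r : ℕ} {F : (MvPolynomial (Fin r) ℤ)[X]} {s : (MvPolynomial (Fin r) ℤ)⟦X⟧}
    (hs : s ^ 2 = (F : (MvPolynomial (Fin r) ℤ)⟦X⟧)) {n m : ℕ} (hn : 1 ≤ n) (hnm : n ≤ m) (hF : F.natDegree ≤ 2 * n)
    (h : Gm s n m = 0) : ∃ (P Q : (MvPolynomial (Fin r) ℤ)[X]) (c : MvPolynomial (Fin r) ℤ), Q ≠ 0 ∧ P.natDegree ≤ m ∧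
      Q.natDegree + n ≤ m ∧ P ^ 2 - Q ^ 2 * F = C c * X ^ (2 * m) := by
  classical
  rw [Gm, ← Matrix.exists_mulVec_eq_zero_iff] at h
  obtain ⟨v, hv0, hv⟩ := h
  have h1 : dotProduct ((Hm s n m).mulVec v) ((Hm s n m).mulVec v) = 0 := by
    have h2 : dotProduct v (((Hm s n m).transpose * Hm s n m).mulVec v) =
        dotProduct ((Hm s n m).mulVec v) ((Hm s n m).mulVec v) := by
      rw [← Matrix.mulVec_mulVec, Matrix.dotProduct_mulVec, Matrix.vecMul_transpose]
    rw [← h2, hv, dotProduct_zero]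
  have h2 : ∀ i, (Hm s n m).mulVec v i = 0 := by
    intro i
    apply MvPolynomial.funext
    intro x
    rw [map_zero]
    have h3 := congrArg (MvPolynomial.eval x) h1
    rw [dotProduct, map_sum, map_zero] at h3
    simp only [map_mul] at h3
    have h4 := (Finset.sum_eq_zero_iff_of_nonneg (fun i _ => mul_self_nonneg _)).1 h3 i (Finset.mem_univ i)
    exact mul_self_eq_zero.1 h4
  set Q : (MvPolynomial (Fin r) ℤ)[X] := ∑ e : Fin (m - n + 1), C (v e) * X ^ (e : ℕ) with hQ
  have hcoeff : ∀ j : Fin (m - n + 1), Q.coeff j = v j := fun j => by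
    rw [hQ, finsetSum_coeff]
    simp only [coeff_C_mul, coeff_X_pow]
    rw [Finset.sum_eq_single j]
    · simp
    · intro b _ hb
      rw [if_neg (fun h => hb (Fin.ext h.symm)), mul_zero]
    · intro h; exact absurd (Finset.mem_univ _) h
  have hQdeg : Q.natDegree ≤ m - n := by
    rw [hQ]
    apply natDegree_sum_le_of_forall_le
    intro e _
    refine (natDegree_C_mul_X_pow_le _ _).trans ?_
    have := e.2
    omega
  have hQ0 : Q ≠ 0 := by
    intro h
    apply hv0
    ext1 j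
    rw [← hcoeff j, h, coeff_zero]
    rfl
  set P : (MvPolynomial (Fin r) ℤ)[X] := PowerSeries.trunc (m + 1) ((Q : (MvPolynomial (Fin r) ℤ)⟦X⟧) * s) with hP
  have hPdeg : P.natDegree ≤ m := by
    rw [hP]
    have := PowerSeries.natDegree_trunc_lt ((Q : (MvPolynomial (Fin r) ℤ)⟦X⟧) * s) m
    omega
  have hPQ : (PowerSeries.X : (MvPolynomial (Fin r) ℤ)⟦X⟧) ^ (2 * m) ∣ (P : (MvPolynomial (Fin r) ℤ)⟦X⟧) - Q * s := by
    rw [PowerSeries.X_pow_dvd_iff]
    intro i hi
    rw [map_sub, Polynomial.coeff_coe, hP, PowerSeries.coeff_trunc]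
    split_ifs with h
    · rw [sub_self]
    · rw [zero_sub, neg_eq_zero, coeff_pol_mul hQdeg s (by omega)]
      have h3 := h2 ⟨i - (m + 1), by omega⟩
      rw [Matrix.mulVec, dotProduct] at h3
      rw [← h3]
      refine Finset.sum_congr rfl fun e _ => ?_
      have h9 : Hm s n m ⟨i - (m + 1), by omega⟩ e = PowerSeries.coeff (i - e) s := by
        show PowerSeries.coeff (m + 1 + (i - (m + 1)) - (e : ℕ)) s = _
        rw [show m + 1 + (i - (m + 1)) = i by omega]
      rw [hcoeff e, h9, mul_comm]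
  refine ⟨P, Q, _, hQ0, hPdeg, by omega, poly_top ?_ ?_⟩
  · have : ((P ^ 2 - Q ^ 2 * F : (MvPolynomial (Fin r) ℤ)[X]) : (MvPolynomial (Fin r) ℤ)⟦X⟧) =
        ((P : (MvPolynomial (Fin r) ℤ)⟦X⟧) - (Q : (MvPolynomial (Fin r) ℤ)⟦X⟧) * s) *
        ((P : (MvPolynomial (Fin r) ℤ)⟦X⟧) + (Q : (MvPolynomial (Fin r) ℤ)⟦X⟧) * s) := by
      push_cast
      rw [← hs]
      ring
    rw [this]
    exact Dvd.dvd.mul_right hPQ _
  · refine (natDegree_sub_le _ _).trans (max_le ?_ ?_)
    · refine natDegree_pow_le.trans ?_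
      omega
    · refine natDegree_mul_le.trans ?_
      have h4 := natDegree_pow_le (p := Q) (n := 2)
      omega

/-- degree of the determinant in the parameters -/
lemma Gm_deg {r n m : ℕ} (hn : 1 ≤ n) (hnm : n ≤ m) {f : (MvPolynomial (Fin r) ℤ)[X]} {D : ℕ}
    (hf : ∀ i, (f.coeff i).totalDegree ≤ D) :
    (Gm (sq n f) n m).totalDegree ≤ 4 * D * m ^ 2 := by
  classical
  have h1 : ∀ i e, (Hm (sq n f) n m i e).totalDegree ≤ D * (2 * m) := fun i e => by
    rw [Hm]
    refine (sq_deg hf _).trans (Nat.mul_le_mul_left D ?_)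
    have := i.2
    omega
  have h2 : ∀ e e', (((Hm (sq n f) n m).transpose * Hm (sq n f) n m) e e').totalDegree ≤ 4 * D * m := fun e e' => by
    rw [Matrix.mul_apply]
    refine MvPolynomial.totalDegree_finsetSum_le fun i _ => ?_
    refine (MvPolynomial.totalDegree_mul _ _).trans ?_
    have h3 := h1 i e
    have h4 := h1 i e'
    rw [Matrix.transpose_apply]
    nlinarith
  rw [Gm, Matrix.det_apply]
  refine MvPolynomial.totalDegree_finsetSum_le fun σ _ => ?_
  have h3 : (Equiv.Perm.sign σ • ∏ i, ((Hm (sq n f) n m).transpose * Hm (sq n f) n m) (σ i) i).totalDegree ≤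
      (∏ i, ((Hm (sq n f) n m).transpose * Hm (sq n f) n m) (σ i) i).totalDegree := by
    rcases Int.units_eq_one_or (Equiv.Perm.sign σ) with h | h
    · rw [h, one_smul]
    · rw [h, Units.neg_smul, one_smul, MvPolynomial.totalDegree_neg]
  refine h3.trans ((MvPolynomial.totalDegree_finsetProd _ _).trans ?_)
  refine (Finset.sum_le_card_nsmul _ _ _ fun i _ => h2 (σ i) i).trans ?_
  rw [Finset.card_univ, Fintype.card_fin, smul_eq_mul]
  calc (m - n + 1) * (4 * D * m) ≤ m * (4 * D * m) := Nat.mul_le_mul_right _ (by omega)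
    _ = 4 * D * m ^ 2 := by ring

section
variable {R : Type*} [CommRing R] [IsDomain R]

lemma comp_inj (h4 : (4 : R) ≠ 0) {g h : R[X]} (hgh : g.comp (C 4 * X) = h.comp (C 4 * X)) : g = h := by
  ext i
  have h1 := congrArg (fun g : R[X] => g.coeff i) hgh
  simp only [comp_C_mul_X_coeff] at h1
  exact mul_right_cancel₀ (pow_ne_zero _ h4) h1

lemma scale (h4 : (4 : R) ≠ 0) {g : R[X]} {N m : ℕ} (hg : g.natDegree ≤ N) (hN : N ≤ m) :
    ∃ g' : R[X], g'.natDegree ≤ N ∧ g'.comp (C 4 * X) = C (4 ^ m) * g ∧ (g ≠ 0 → g' ≠ 0) := by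
  set g' : R[X] := ∑ i ∈ Finset.range (N + 1), C (g.coeff i * 4 ^ (m - i)) * X ^ i with hg'
  have hc : ∀ i, g'.coeff i * 4 ^ i = 4 ^ m * g.coeff i := fun i => by
    rw [hg', finsetSum_coeff]
    simp only [coeff_C_mul, coeff_X_pow]
    by_cases hi : i < N + 1
    · rw [Finset.sum_eq_single i]
      · rw [if_pos rfl, mul_one]
        have : (4 : R) ^ m = 4 ^ (m - i) * 4 ^ i := by
          rw [← pow_add]
          congr 1
          omega
        rw [this]
        ring
      · intro b _ hb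
        rw [if_neg (fun h => hb h.symm), mul_zero]
      · intro h; exact absurd (Finset.mem_range.2 hi) h
    · rw [Finset.sum_eq_zero, coeff_eq_zero_of_natDegree_lt (by omega)]
      · ring
      · intro b hb
        have := Finset.mem_range.1 hb
        rw [if_neg (by omega), mul_zero]
  have hcomp : g'.comp (C 4 * X) = C (4 ^ m) * g := by
    ext i
    rw [comp_C_mul_X_coeff, coeff_C_mul, hc]
  refine ⟨g', ?_, hcomp, fun h0 h => ?_⟩
  · rw [hg']
    apply natDegree_sum_le_of_forall_le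
    intro e he
    refine (natDegree_C_mul_X_pow_le _ _).trans ?_
    have := Finset.mem_range.1 he
    omega
  · rw [h, zero_comp] at hcomp
    rcases mul_eq_zero.1 hcomp.symm with h | h
    · exact pow_ne_zero _ h4 (C_eq_zero.1 h)
    · exact h0 h

/-- from the origin to infinity -/
lemma pell_of {n m : ℕ} (h4 : (4 : R) ≠ 0) {f P Q : R[X]} {c : R} (hn : n ≤ m) (hf : f.natDegree ≤ 2 * n) (hP : P.natDegree ≤ m)
    (hQ : Q.natDegree + n ≤ m) (hQ0 : Q ≠ 0) (hc : c ≠ 0) (h : P ^ 2 - Q ^ 2 * Fp n f = C c * X ^ (2 * m)) : Pell f := by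
  obtain ⟨P', hP', hP'c, _⟩ := scale h4 hP (le_refl m)
  obtain ⟨Q', hQ', hQ'c, hQ'0⟩ := scale h4 (N := m - n) (m := m) (g := Q) (by omega) (by omega)
  have h1 : P' ^ 2 - Q' ^ 2 * reflect (2 * n) f = C c * X ^ (2 * m) := by
    refine comp_inj h4 ?_
    rw [sub_comp, mul_comp, pow_comp, pow_comp, hP'c, hQ'c, mul_comp, C_comp, pow_comp, X_comp]
    have h2 : (reflect (2 * n) f).comp (C 4 * X) = Fp n f := rfl
    rw [h2]
    have h3 : (C (4 ^ m) * P) ^ 2 - (C (4 ^ m) * Q) ^ 2 * Fp n f = C (4 ^ m) ^ 2 * (P ^ 2 - Q ^ 2 * Fp n f) := by ring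
    rw [h3, h, mul_pow, C_pow]
    ring
  refine ⟨reflect m P', reflect (m - n) Q', c, by rw [Ne, reflect_eq_zero_iff]; exact hQ'0 hQ0, hc, ?_⟩
  have h2 : reflect (2 * m) (P' ^ 2 - Q' ^ 2 * reflect (2 * n) f) = (reflect m P') ^ 2 - (reflect (m - n) Q') ^ 2 * f := by
    rw [reflect_sub]
    congr 1
    · rw [pow_two, pow_two, two_mul, reflect_mul _ _ hP' hP']
    · have h2 : 2 * m = ((m - n) + (m - n)) + 2 * n := by omega
      rw [h2, pow_two, pow_two, reflect_mul _ _ (natDegree_mul_le.trans (by omega)) (natDegree_refl_le hf),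
        reflect_mul _ _ (by omega) (by omega), reflect_reflect]
  rw [mul_comm f, ← h2, h1, reflect_C_mul_X_pow, revAt_le le_rfl, Nat.sub_self, pow_zero, mul_one]

/-- from infinity to the origin -/
lemma sol_of_pell {n : ℕ} (h4 : (4 : R) ≠ 0) {f : R[X]} (hf : f.natDegree ≤ 2 * n) (h : Pell f) :
    ∃ (M : ℕ) (P Q : R[X]) (c : R), P.natDegree ≤ M ∧ Q.natDegree + n ≤ M ∧ Q ≠ 0 ∧ c ≠ 0 ∧
      P ^ 2 - Q ^ 2 * Fp n f = C c * X ^ (2 * M) := by
  obtain ⟨a, b, c, hb, hc, hab⟩ := h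
  set M := b.natDegree + n with hM
  have ha : a.natDegree ≤ M := by
    have h1 : a ^ 2 = f * b ^ 2 + C c := by linear_combination hab
    have h2 : (a ^ 2).natDegree ≤ 2 * M := by
      rw [h1]
      refine (natDegree_add_le _ _).trans (max_le ?_ (by rw [natDegree_C]; omega))
      refine natDegree_mul_le.trans ?_
      rw [natDegree_pow]
      omega
    rw [natDegree_pow] at h2
    omega
  have hcompdeg : ∀ (g : R[X]) (N : ℕ), g.natDegree ≤ N → (g.comp (C 4 * X)).natDegree ≤ N := fun g N hg => by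
    rw [natDegree_le_iff_coeff_eq_zero]
    intro i hi
    rw [comp_C_mul_X_coeff, coeff_eq_zero_of_natDegree_lt (lt_of_le_of_lt hg hi), zero_mul]
  refine ⟨M, (reflect M a).comp (C 4 * X), (reflect (M - n) b).comp (C 4 * X), c * 4 ^ (2 * M),
    hcompdeg _ _ (natDegree_refl_le ha), ?_, ?_, mul_ne_zero hc (pow_ne_zero _ h4), ?_⟩
  · have := hcompdeg (reflect (M - n) b) (M - n) (natDegree_refl_le (by omega))
    omega
  · intro h
    have h1 : reflect (M - n) b = 0 := comp_inj h4 (by rw [h, zero_comp])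
    rw [reflect_eq_zero_iff] at h1
    exact hb h1
  · have h2 : reflect (2 * M) (a ^ 2 - f * b ^ 2) = (reflect M a) ^ 2 - (reflect (M - n) b) ^ 2 * reflect (2 * n) f := by
      rw [reflect_sub, mul_comm f]
      congr 1
      · rw [pow_two, pow_two, two_mul, reflect_mul _ _ ha ha]
      · have h2 : 2 * M = ((M - n) + (M - n)) + 2 * n := by omega
        rw [h2, pow_two, pow_two, reflect_mul _ _ (natDegree_mul_le.trans (by omega)) hf,
          reflect_mul _ _ (by omega) (by omega)]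
    have h3 : ((reflect M a).comp (C 4 * X)) ^ 2 - ((reflect (M - n) b).comp (C 4 * X)) ^ 2 * Fp n f =
        ((reflect M a) ^ 2 - (reflect (M - n) b) ^ 2 * reflect (2 * n) f).comp (C 4 * X) := by
      rw [sub_comp, mul_comp, pow_comp, pow_comp, Fp]
    rw [h3, ← h2, hab, reflect_C, mul_comp, C_comp, pow_comp, X_comp, C_mul, C_pow, mul_pow]
    ring

end

end Pool.Agent.X35.PE
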