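import Pool.Agent.X35.PE.Basic

/-! Reduction of units of order prime to the characteristic: lifting to characteristic zero. -/

set_option autoImplicit false

open Polynomial

namespace Pool.Agent.X35.PE

open scoped PowerSeries

/-- `(a, b)` is a unit of degree `d` -/
def IsU {A : Type*} [CommRing A] (F : A[X]) (s : A⟦X⟧) (n d : ℕ) (a b : A[X]) : Prop :=
  a.natDegree ≤ d ∧ b.natDegree + n ≤ d ∧ b.coeff 0 ≠ 0 ∧ (∃ c : A, c ≠ 0 ∧ a ^ 2 - b ^ 2 * F = C c * X ^ (2 * d)) ∧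
    (PowerSeries.X : A⟦X⟧) ^ (2 * d) ∣ (a : A⟦X⟧) - b * s

/-- powers of `P + Q s` -/
lemma pow_pair {A : Type*} [CommRing A] {F P Q : A[X]} {s : A⟦X⟧} (hs : s ^ 2 = (F : A⟦X⟧)) {n d : ℕ}
    (hF : F.natDegree ≤ 2 * n) (hP : P.natDegree ≤ d) (hQ : Q.natDegree + n ≤ d) {l : ℕ} (hl : 1 ≤ l) :
    ∃ U V : A[X], U.natDegree ≤ l * d ∧ V.natDegree + n ≤ l * d ∧
      ((P : A⟦X⟧) + Q * s) ^ l = U + V * s ∧ ((P : A⟦X⟧) - Q * s) ^ l = U - V * s := by
  induction l, hl using Nat.le_induction with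
  | base => exact ⟨P, Q, by simpa using hP, by simpa using hQ, by simp, by simp⟩
  | succ l hl ih =>
    obtain ⟨U, V, h1, h2, h3, h4⟩ := ih
    refine ⟨U * P + V * Q * F, U * Q + V * P, ?_, ?_, ?_, ?_⟩
    · refine (natDegree_add_le _ _).trans (max_le ?_ ?_)
      · refine natDegree_mul_le.trans ?_
        nlinarith
      · refine natDegree_mul_le.trans ?_
        have := natDegree_mul_le (p := V) (q := Q)
        nlinarith
    · have h5 : (U * Q + V * P).natDegree ≤ max (U.natDegree + Q.natDegree) (V.natDegree + P.natDegree) :=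
        (natDegree_add_le _ _).trans (max_le_max natDegree_mul_le natDegree_mul_le)
      rcases le_max_iff.1 h5 with h | h <;> nlinarith
    · rw [pow_succ, h3]
      push_cast
      rw [← hs]
      ring
    · rw [pow_succ, h4]
      push_cast
      rw [← hs]
      ring

/-- reduction modulo `p` and divisibility by `p` -/
lemma map_zero_iff {p : ℕ} (g : ℤ[X]) : g.map (Int.castRingHom (ZMod p)) = 0 ↔ C (p : ℤ) ∣ g := by
  rw [C_dvd_iff_dvd_coeff, Polynomial.ext_iff]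
  refine forall_congr' fun i => ?_
  rw [coeff_map, coeff_zero, eq_intCast, ZMod.intCast_zmod_eq_zero_iff_dvd]

/-- take out the power of `p` -/
lemma take_out {p : ℕ} [Fact p.Prime] {g : ℤ[X]} (hg : g ≠ 0) : ∃ j : ℕ, ∃ h : ℤ[X], g = C ((p : ℤ) ^ j) * h ∧
    h.map (Int.castRingHom (ZMod p)) ≠ 0 := by
  have hp : Nat.Prime p := Fact.out
  have hnu : ¬ IsUnit (C (p : ℤ) : ℤ[X]) := by
    rw [isUnit_C, Int.isUnit_iff]
    have := hp.two_le
    omega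
  have hfin : FiniteMultiplicity (C (p : ℤ) : ℤ[X]) g := FiniteMultiplicity.of_not_isUnit hnu hg
  obtain ⟨h, h1, h2⟩ := hfin.exists_eq_pow_mul_and_not_dvd
  refine ⟨multiplicity (C (p : ℤ)) g, h, ?_, ?_⟩
  · rw [C_pow]; exact h1
  · rw [Ne, map_zero_iff]; exact h2

theorem key {p : ℕ} [Fact p.Prime] (hp2 : (2 : ZMod p) ≠ 0) {F : ℤ[X]} {s : ℤ⟦X⟧} (hs : s ^ 2 = (F : ℤ⟦X⟧))
    (hs0 : PowerSeries.constantCoeff s = 1) {n : ℕ} (hn : 1 ≤ n) (hF : F.natDegree ≤ 2 * n)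
    {l d m : ℕ} (hm : m = l * d) (hl1 : 1 ≤ l) (hl : (l : ZMod p) ≠ 0) {u1 u2 : ℤ[X]}
    (hd1 : u1.natDegree ≤ m) (hd2 : u2.natDegree + n ≤ m)
    (hdiv : (PowerSeries.X : ℤ⟦X⟧) ^ (2 * m) ∣ (u1 : ℤ⟦X⟧) - u2 * s) (hu : ((u2.coeff 0 : ℤ) : ZMod p) ≠ 0)
    {a1 b1 : (ZMod p)[X]} (hab : IsU (F.map (Int.castRingHom (ZMod p)))
      (PowerSeries.map (Int.castRingHom (ZMod p)) s) n d a1 b1) :
    ∃ P Q : ℤ[X], ∃ c : ℤ, Q ≠ 0 ∧ c ≠ 0 ∧ P.natDegree ≤ d ∧ Q.natDegree + n ≤ d ∧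
      P ^ 2 - Q ^ 2 * F = C c * X ^ (2 * d) := by
  classical
  set φ : ℤ →+* ZMod p := Int.castRingHom (ZMod p) with hφ
  obtain ⟨ha, hb, hb0, ⟨c1, hc1, hN1⟩, hdiv1⟩ := hab
  have hp : Nat.Prime p := Fact.out
  have hnd : n ≤ d := by omega
  set sb : (ZMod p)⟦X⟧ := PowerSeries.map φ s with hsb
  have hsb0 : PowerSeries.constantCoeff sb = 1 := by
    rw [hsb, ← PowerSeries.coeff_zero_eq_constantCoeff_apply, PowerSeries.coeff_map,
      PowerSeries.coeff_zero_eq_constantCoeff_apply, hs0, map_one]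
  have hsb2 : sb ^ 2 = ((F.map φ : (ZMod p)[X]) : (ZMod p)⟦X⟧) := by
    rw [hsb, ← map_pow, hs, Polynomial.polynomial_map_coe]
  -- the Pade approximant, primitive
  obtain ⟨Q0, hQ0, hQd, hQc⟩ := pade s hn hnd
  obtain ⟨Q, hQprim, hQdeg, hQco⟩ : ∃ Q : ℤ[X], Q.IsPrimitive ∧ Q.natDegree + n ≤ d ∧
      ∀ i, d < i → i ≤ 2 * d - n → PowerSeries.coeff i ((Q : ℤ⟦X⟧) * s) = 0 := by
    refine ⟨Q0.primPart, Q0.isPrimitive_primPart, by rw [natDegree_primPart]; exact hQd, fun i h1 h2 => ?_⟩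
    have h3 := hQc i h1 h2
    rw [Q0.eq_C_content_mul_primPart, Polynomial.coe_mul, Polynomial.coe_C, mul_assoc,
      PowerSeries.coeff_C_mul] at h3
    rcases mul_eq_zero.1 h3 with h | h
    · exact absurd (content_eq_zero_iff.1 h) hQ0
    · exact h
  have hQb : Q.map φ ≠ 0 := by
    rw [Ne, map_zero_iff]
    intro h
    have h1 := hQprim _ h
    rw [Int.isUnit_iff] at h1
    have := hp.two_le
    omega
  set P : ℤ[X] := PowerSeries.trunc (d + 1) ((Q : ℤ⟦X⟧) * s) with hP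
  have hPdeg : P.natDegree ≤ d := by
    rw [hP]
    have := PowerSeries.natDegree_trunc_lt ((Q : ℤ⟦X⟧) * s) d
    omega
  have hPQ : (PowerSeries.X : ℤ⟦X⟧) ^ (2 * d - n + 1) ∣ (P : ℤ⟦X⟧) - Q * s := by
    rw [PowerSeries.X_pow_dvd_iff]
    intro i hi
    rw [map_sub, Polynomial.coeff_coe, hP, PowerSeries.coeff_trunc]
    split_ifs with h
    · rw [sub_self]
    · rw [hQco i (by omega) (by omega), sub_zero]
  -- reduction
  have hred : ∀ (g : ℤ⟦X⟧) (k : ℕ), (PowerSeries.X : ℤ⟦X⟧) ^ k ∣ g →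
      (PowerSeries.X : (ZMod p)⟦X⟧) ^ k ∣ PowerSeries.map φ g := by
    intro g k ⟨q, hq⟩
    refine ⟨PowerSeries.map φ q, ?_⟩
    rw [hq, map_mul, map_pow, PowerSeries.map_X]
  have hcoe : ∀ g : ℤ[X], PowerSeries.map φ (g : ℤ⟦X⟧) = ((g.map φ : (ZMod p)[X]) : (ZMod p)⟦X⟧) := fun g =>
    (Polynomial.polynomial_map_coe).symm
  have hPQb := hred _ _ hPQ
  rw [map_sub, map_mul, hcoe, hcoe, ← hsb] at hPQb
  -- proportionality
  have hprop : a1 * Q.map φ = b1 * P.map φ := by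
    have h1 : ((a1 * Q.map φ - b1 * P.map φ : (ZMod p)[X]) : (ZMod p)⟦X⟧) =
        ((a1 : (ZMod p)⟦X⟧) - b1 * sb) * (Q.map φ : (ZMod p)[X]) - b1 * ((P.map φ : (ZMod p)[X]) - (Q.map φ : (ZMod p)[X]) * sb) := by
      push_cast
      ring
    have h2 : (PowerSeries.X : (ZMod p)⟦X⟧) ^ (2 * d - n + 1) ∣ ((a1 * Q.map φ - b1 * P.map φ : (ZMod p)[X]) : (ZMod p)⟦X⟧) := by
      rw [h1]
      refine dvd_sub (Dvd.dvd.mul_right ((pow_dvd_pow _ (by omega)).trans hdiv1) _) (Dvd.dvd.mul_left hPQb _)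
    have h3 := poly_zero h2 (by
      refine lt_of_le_of_lt (natDegree_sub_le _ _) (max_lt ?_ ?_)
      · refine lt_of_le_of_lt natDegree_mul_le ?_
        have := natDegree_map_le (f := φ) (p := Q)
        omega
      · refine lt_of_le_of_lt natDegree_mul_le ?_
        have := natDegree_map_le (f := φ) (p := P)
        omega)
    exact sub_eq_zero.1 h3
  -- the norm modulo p
  have hNb : ∃ e : ZMod p, e ≠ 0 ∧ (P.map φ) ^ 2 - (Q.map φ) ^ 2 * F.map φ = C e * X ^ (2 * d) := by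
    have h1 : ((P.map φ) ^ 2 - (Q.map φ) ^ 2 * F.map φ) * b1 ^ 2 = (Q.map φ) ^ 2 * (C c1 * X ^ (2 * d)) := by
      rw [← hN1]
      linear_combination (-(b1 * P.map φ) - a1 * Q.map φ) * hprop
    have h2 : (PowerSeries.X : (ZMod p)⟦X⟧) ^ (2 * d) ∣
        (((P.map φ) ^ 2 - (Q.map φ) ^ 2 * F.map φ : (ZMod p)[X]) : (ZMod p)⟦X⟧) := by
      refine xpow_of_mul (u := ((b1 ^ 2 : (ZMod p)[X]) : (ZMod p)⟦X⟧)) ?_ ?_
      · rw [← PowerSeries.coeff_zero_eq_constantCoeff_apply, Polynomial.coeff_coe, coeff_zero_eq_eval_zero, eval_pow,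
          ← coeff_zero_eq_eval_zero]
        exact pow_ne_zero _ hb0
      · rw [← Polynomial.coe_mul, h1]
        push_cast
        exact Dvd.intro_left (((Q.map φ : (ZMod p)[X]) : (ZMod p)⟦X⟧) ^ 2 * PowerSeries.C c1) (by ring)
    have h3 := poly_top h2 (by
      refine (natDegree_sub_le _ _).trans (max_le ?_ ?_)
      · refine natDegree_pow_le.trans ?_
        have := natDegree_map_le (f := φ) (p := P)
        omega
      · refine natDegree_mul_le.trans ?_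
        have h4 := natDegree_pow_le (p := Q.map φ) (n := 2)
        have h5 := natDegree_map_le (f := φ) (p := Q)
        have h6 := natDegree_map_le (f := φ) (p := F)
        omega)
    refine ⟨_, ?_, h3⟩
    intro h0
    rw [h0, C_0, zero_mul] at h3
    rw [h3, zero_mul] at h1
    rcases mul_eq_zero.1 h1.symm with h | h
    · exact hQb (pow_eq_zero_iff (by norm_num) |>.1 h)
    · rcases mul_eq_zero.1 h with h | h
      · exact hc1 (C_eq_zero.1 h)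
      · exact absurd h (pow_ne_zero _ X_ne_zero)
  obtain ⟨e, he, hNe⟩ := hNb
  -- Q(0) ≠ 0 and v(0) ≠ 0 modulo p
  have hab0 : a1.coeff 0 = b1.coeff 0 := by
    have h1 := PowerSeries.X_pow_dvd_iff.1 hdiv1 0 (by omega)
    rw [map_sub, Polynomial.coeff_coe, PowerSeries.coeff_zero_eq_constantCoeff_apply, map_mul, hsb0, mul_one,
      ← PowerSeries.coeff_zero_eq_constantCoeff_apply, Polynomial.coeff_coe, sub_eq_zero] at h1
    exact h1
  have hPQ0 : (P.map φ).coeff 0 = (Q.map φ).coeff 0 := by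
    have h1 := congrArg (fun g : (ZMod p)[X] => g.coeff 0) hprop
    simp only [mul_coeff_zero] at h1
    rw [hab0] at h1
    exact (mul_left_cancel₀ hb0 h1).symm
  have hQ00 : (Q.map φ).coeff 0 ≠ 0 := by
    intro h0
    -- compare the coefficient of X ^ (2 d)
    have h1 : ((P.map φ) ^ 2 - (Q.map φ) ^ 2 * F.map φ) * b1 ^ 2 = (Q.map φ) ^ 2 * (C c1 * X ^ (2 * d)) := by
      rw [← hN1]
      linear_combination (-(b1 * P.map φ) - a1 * Q.map φ) * hprop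
    rw [hNe] at h1
    have h2 : X ^ (2 * d) * (C e * b1 ^ 2) = X ^ (2 * d) * (C c1 * (Q.map φ) ^ 2) := by
      linear_combination h1
    have h3 := mul_left_cancel₀ (pow_ne_zero _ X_ne_zero) h2
    have h4 := congrArg (fun g : (ZMod p)[X] => g.coeff 0) h3
    simp only [mul_coeff_zero, coeff_C_zero, pow_two, h0, mul_zero] at h4
    exact mul_ne_zero he (mul_ne_zero hb0 hb0) h4
  have hv0 : PowerSeries.constantCoeff (((P.map φ : (ZMod p)[X]) : (ZMod p)⟦X⟧) + ((Q.map φ : (ZMod p)[X]) : (ZMod p)⟦X⟧) * sb) ≠ 0 := by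
    rw [map_add, map_mul, hsb0, mul_one, ← PowerSeries.coeff_zero_eq_constantCoeff_apply,
      ← PowerSeries.coeff_zero_eq_constantCoeff_apply, Polynomial.coeff_coe, Polynomial.coeff_coe, hPQ0, ← two_mul]
    exact mul_ne_zero hp2 hQ00
  -- the norm of the approximant
  set N : ℤ[X] := P ^ 2 - Q ^ 2 * F with hN
  have hNdeg : N.natDegree ≤ 2 * d := by
    rw [hN]
    refine (natDegree_sub_le _ _).trans (max_le ?_ ?_)
    · refine natDegree_pow_le.trans ?_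
      omega
    · refine natDegree_mul_le.trans ?_
      have h4 := natDegree_pow_le (p := Q) (n := 2)
      omega
  set v : ℤ⟦X⟧ := (P : ℤ⟦X⟧) + Q * s with hv
  have hvv : v * ((P : ℤ⟦X⟧) - Q * s) = (N : ℤ⟦X⟧) := by
    rw [hN, hv]
    push_cast
    rw [← hs]
    ring
  have hNdvd : (PowerSeries.X : ℤ⟦X⟧) ^ (2 * d - n + 1) ∣ (N : ℤ⟦X⟧) := by
    rw [← hvv]
    exact Dvd.dvd.mul_left hPQ _
  have hNmap : N.map φ = C e * X ^ (2 * d) := by
    rw [hN, Polynomial.map_sub, Polynomial.map_mul, Polynomial.map_pow, Polynomial.map_pow, hNe]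
  set cv : ℤ := N.coeff (2 * d) with hcv
  have hcvb : φ cv = e := by
    rw [hcv, ← coeff_map, hNmap, coeff_C_mul, coeff_X_pow, if_pos rfl, mul_one]
  set H : ℤ[X] := N - C cv * X ^ (2 * d) with hH
  by_cases hH0 : H = 0
  · refine ⟨P, Q, cv, fun h => hQb (by rw [h, Polynomial.map_zero]), fun h => he ?_, hPdeg, hQdeg, sub_eq_zero.1 hH0⟩
    rw [← hcvb, h, map_zero]
  exfalso
  obtain ⟨j, h, hHj, hhb⟩ := take_out (p := p) hH0
  rw [← hφ] at hhb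
  have hpj : ((p : ℤ) ^ j) ≠ 0 := pow_ne_zero _ (by exact_mod_cast hp.ne_zero)
  have hj : 1 ≤ j := by
    by_contra hcon
    have h0 : j = 0 := by omega
    rw [h0, pow_zero, C_1, one_mul] at hHj
    apply hhb
    rw [← hHj, hH, Polynomial.map_sub, hNmap, Polynomial.map_mul, map_C, hcvb, Polynomial.map_pow, map_X, sub_self]
  have hhdeg : h.natDegree < 2 * d := by
    have h1 : H.natDegree = h.natDegree := by
      rw [hHj, natDegree_C_mul hpj]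
    rw [← h1]
    by_contra hcon
    have h2 : H.leadingCoeff ≠ 0 := leadingCoeff_ne_zero.2 hH0
    apply h2
    rw [leadingCoeff, hH, coeff_sub, coeff_C_mul, coeff_X_pow, ← hH]
    by_cases h3 : H.natDegree = 2 * d
    · rw [if_pos h3, h3, mul_one, ← hcv, sub_self]
    · rw [if_neg h3, mul_zero, sub_zero]
      exact coeff_eq_zero_of_natDegree_lt (by omega)
  have hhdvd : (PowerSeries.X : ℤ⟦X⟧) ^ (2 * d - n + 1) ∣ (h : ℤ⟦X⟧) := by
    refine xpow_of_C_mul hpj ?_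
    have h1 : PowerSeries.C ((p : ℤ) ^ j) * (h : ℤ⟦X⟧) = (N : ℤ⟦X⟧) - PowerSeries.C cv * PowerSeries.X ^ (2 * d) := by
      rw [← Polynomial.coe_C, ← Polynomial.coe_mul, ← hHj, hH]
      push_cast
      rfl
    rw [h1]
    exact dvd_sub hNdvd (Dvd.dvd.mul_left (pow_dvd_pow _ (by omega)) _)
  obtain ⟨U, V, hU, hV, hUV, hUV'⟩ := pow_pair hs hF hPdeg hQdeg hl1
  rw [← hm] at hU hV
  set Δ : ℤ[X] := U * u2 - V * u1 with hΔ
  have hΔdeg : Δ.natDegree ≤ 2 * m - n := by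
    rw [hΔ]
    refine (natDegree_sub_le _ _).trans (max_le ?_ ?_)
    · refine natDegree_mul_le.trans ?_
      omega
    · refine natDegree_mul_le.trans ?_
      omega
  obtain ⟨w, hw⟩ := hdiv
  have hΔv : (Δ : ℤ⟦X⟧) * v ^ l = (N : ℤ⟦X⟧) ^ l * (u2 : ℤ⟦X⟧) - (V : ℤ⟦X⟧) * (PowerSeries.X ^ (2 * m) * w) * v ^ l := by
    have h1 : v ^ l * ((U : ℤ⟦X⟧) - V * s) = (N : ℤ⟦X⟧) ^ l := by
      rw [← hUV', ← mul_pow, hvv]
    rw [← h1, ← hw, hΔ]
    push_cast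
    ring
  obtain ⟨Z, hZ⟩ := Polynomial.powAddExpansion (C cv * X ^ (2 * d) : ℤ[X]) (C ((p : ℤ) ^ j) * h) l
  have hNH : N = C cv * X ^ (2 * d) + C ((p : ℤ) ^ j) * h := by
    rw [← hHj, hH]
    ring
  rw [← hNH] at hZ
  have hZ' : (N : ℤ⟦X⟧) ^ l = (PowerSeries.C cv * PowerSeries.X ^ (2 * d)) ^ l +
      (l : ℤ⟦X⟧) * (PowerSeries.C cv * PowerSeries.X ^ (2 * d)) ^ (l - 1) * (PowerSeries.C ((p : ℤ) ^ j) * (h : ℤ⟦X⟧)) +
      (Z : ℤ⟦X⟧) * (PowerSeries.C ((p : ℤ) ^ j) * (h : ℤ⟦X⟧)) ^ 2 := by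
    have hlc : (((l : ℤ[X])) : ℤ⟦X⟧) = (l : ℤ⟦X⟧) := by
      simp only [← Polynomial.coeToPowerSeries.ringHom_apply, map_natCast]
    rw [← Polynomial.coe_pow, hZ]
    push_cast
    rw [hlc]
  have hrel : (PowerSeries.X : ℤ⟦X⟧) ^ (2 * m) ∣ (Δ : ℤ⟦X⟧) * v ^ l - PowerSeries.C ((p : ℤ) ^ j) *
      ((l : ℤ⟦X⟧) * (PowerSeries.C cv * PowerSeries.X ^ (2 * d)) ^ (l - 1) * (h : ℤ⟦X⟧) * (u2 : ℤ⟦X⟧) +
        PowerSeries.C ((p : ℤ) ^ j) * ((Z : ℤ⟦X⟧) * (h : ℤ⟦X⟧) ^ 2 * (u2 : ℤ⟦X⟧))) := by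
    refine ⟨PowerSeries.C cv ^ l * (u2 : ℤ⟦X⟧) - (V : ℤ⟦X⟧) * w * v ^ l, ?_⟩
    rw [hΔv, hZ', mul_pow, ← pow_mul, hm]
    have : 2 * d * l = 2 * (l * d) := by ring
    rw [this]
    ring
  -- `p ^ j` divides `Δ`
  obtain ⟨δ, hδ⟩ : ∃ δ : ℤ[X], Δ = C ((p : ℤ) ^ j) * δ := by
    by_cases hΔ0 : Δ = 0
    · exact ⟨0, by rw [hΔ0, mul_zero]⟩
    obtain ⟨i, δ, hi, hδb⟩ := take_out (p := p) hΔ0
    rw [← hφ] at hδb
    by_cases hij : j ≤ i
    · refine ⟨C ((p : ℤ) ^ (i - j)) * δ, ?_⟩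
      rw [← mul_assoc, ← C_mul, ← pow_add, Nat.add_sub_cancel' hij, hi]
    exfalso
    have hpi : ((p : ℤ) ^ i) ≠ 0 := pow_ne_zero _ (by exact_mod_cast hp.ne_zero)
    have hji : (p : ℤ) ^ j = (p : ℤ) ^ i * ((p : ℤ) * (p : ℤ) ^ (j - i - 1)) := by
      rw [← pow_succ', ← pow_add]
      congr 1
      omega
    have h1 : (PowerSeries.X : ℤ⟦X⟧) ^ (2 * m) ∣ PowerSeries.C ((p : ℤ) ^ i) * ((δ : ℤ⟦X⟧) * v ^ l -
        PowerSeries.C ((p : ℤ) * (p : ℤ) ^ (j - i - 1)) *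
      ((l : ℤ⟦X⟧) * (PowerSeries.C cv * PowerSeries.X ^ (2 * d)) ^ (l - 1) * (h : ℤ⟦X⟧) * (u2 : ℤ⟦X⟧) +
        PowerSeries.C ((p : ℤ) ^ j) * ((Z : ℤ⟦X⟧) * (h : ℤ⟦X⟧) ^ 2 * (u2 : ℤ⟦X⟧)))) := by
      have h2 : PowerSeries.C ((p : ℤ) ^ j) = PowerSeries.C ((p : ℤ) ^ i) * PowerSeries.C ((p : ℤ) * (p : ℤ) ^ (j - i - 1)) := by
        rw [← map_mul, ← hji]
      have h3 : (Δ : ℤ⟦X⟧) = PowerSeries.C ((p : ℤ) ^ i) * (δ : ℤ⟦X⟧) := by
        rw [hi, Polynomial.coe_mul, Polynomial.coe_C]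
      have h4 := hrel
      rw [h3] at h4
      rw [mul_sub, ← mul_assoc, ← mul_assoc, ← h2]
      exact h4
    have h2 := hred _ _ (xpow_of_C_mul hpi h1)
    rw [map_sub, map_mul, map_mul, PowerSeries.map_C] at h2
    have h3 : φ ((p : ℤ) * (p : ℤ) ^ (j - i - 1)) = 0 := by
      rw [map_mul]
      have : φ (p : ℤ) = 0 := by simp [hφ]
      rw [this, zero_mul]
    rw [h3, map_zero, zero_mul, sub_zero, map_pow, hcoe] at h2
    have h4 := xpow_of_mul (u := (PowerSeries.map φ v) ^ l) (by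
      rw [map_pow]
      refine pow_ne_zero _ ?_
      rw [hv, map_add, map_mul, hcoe, hcoe]
      exact hv0) h2
    apply hδb
    refine poly_zero h4 ?_
    have h5 := natDegree_map_le (f := φ) (p := δ)
    have h6 : Δ.natDegree = δ.natDegree := by
      rw [hi, natDegree_C_mul hpi]
    omega
  -- cancel `p ^ j`
  have hrel2 : (PowerSeries.X : ℤ⟦X⟧) ^ (2 * m) ∣ (δ : ℤ⟦X⟧) * v ^ l -
      ((l : ℤ⟦X⟧) * (PowerSeries.C cv * PowerSeries.X ^ (2 * d)) ^ (l - 1) * (h : ℤ⟦X⟧) * (u2 : ℤ⟦X⟧) +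
        PowerSeries.C ((p : ℤ) ^ j) * ((Z : ℤ⟦X⟧) * (h : ℤ⟦X⟧) ^ 2 * (u2 : ℤ⟦X⟧))) := by
    refine xpow_of_C_mul hpj ?_
    have h3 : (Δ : ℤ⟦X⟧) = PowerSeries.C ((p : ℤ) ^ j) * (δ : ℤ⟦X⟧) := by
      rw [hδ, Polynomial.coe_mul, Polynomial.coe_C]
    have h4 := hrel
    rw [h3] at h4
    rw [mul_sub, ← mul_assoc]
    exact h4
  have hrel3 := hred _ _ hrel2
  have hpj0 : φ ((p : ℤ) ^ j) = 0 := by
    have : φ (p : ℤ) = 0 := by simp [hφ]
    rw [map_pow, this, zero_pow (by omega)]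
  rw [map_sub, map_add, map_mul, map_mul (PowerSeries.map φ) (PowerSeries.C ((p : ℤ) ^ j)), PowerSeries.map_C, hpj0,
    map_zero, zero_mul, add_zero, hcoe, map_mul, map_mul, map_mul, map_pow, map_pow, map_mul, map_pow, PowerSeries.map_X,
    PowerSeries.map_C, hcvb, map_natCast, hcoe, hcoe] at hrel3
  have hvb0 : PowerSeries.constantCoeff (PowerSeries.map φ v) ≠ 0 := by
    rw [hv, map_add, map_mul, hcoe, hcoe]
    exact hv0
  have hhb' := hred _ _ hhdvd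
  rw [hcoe] at hhb'
  -- `δ = 0` modulo `p`
  have hexp : (PowerSeries.X : (ZMod p)⟦X⟧) ^ (2 * m - n + 1) ∣
      (l : (ZMod p)⟦X⟧) * (PowerSeries.C e * PowerSeries.X ^ (2 * d)) ^ (l - 1) * ((h.map φ : (ZMod p)[X]) : (ZMod p)⟦X⟧) *
        ((u2.map φ : (ZMod p)[X]) : (ZMod p)⟦X⟧) := by
    refine Dvd.dvd.mul_right ?_ _
    have h1 : 2 * m - n + 1 = 2 * d * (l - 1) + (2 * d - n + 1) := by
      obtain ⟨l', rfl⟩ : ∃ l', l = l' + 1 := ⟨l - 1, by omega⟩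
      rw [hm, Nat.add_sub_cancel]
      have : 2 * ((l' + 1) * d) = 2 * d * l' + 2 * d := by ring
      omega
    rw [h1, pow_add, mul_pow, ← pow_mul, ← mul_assoc]
    exact mul_dvd_mul (Dvd.intro_left _ rfl) hhb'
  have hδ0 : δ.map φ = 0 := by
    have h1 : (PowerSeries.X : (ZMod p)⟦X⟧) ^ (2 * m - n + 1) ∣
        ((δ.map φ : (ZMod p)[X]) : (ZMod p)⟦X⟧) * (PowerSeries.map φ v) ^ l := by
      have h2 := (pow_dvd_pow (PowerSeries.X : (ZMod p)⟦X⟧) (show 2 * m - n + 1 ≤ 2 * m by omega)).trans hrel3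
      have h3 := dvd_add h2 hexp
      rwa [sub_add_cancel] at h3
    have h2 := xpow_of_mul (by rw [map_pow]; exact pow_ne_zero _ hvb0) h1
    refine poly_zero h2 ?_
    have h5 := natDegree_map_le (f := φ) (p := δ)
    have h6 : Δ.natDegree = δ.natDegree := by
      rw [hδ, natDegree_C_mul hpj]
    omega
  rw [hδ0, Polynomial.coe_zero, zero_mul, zero_sub, dvd_neg] at hrel3
  -- `h = 0` modulo `p`
  have h1 : (PowerSeries.X : (ZMod p)⟦X⟧) ^ (2 * d * (l - 1)) * (PowerSeries.X : (ZMod p)⟦X⟧) ^ (2 * d) ∣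
      (PowerSeries.X : (ZMod p)⟦X⟧) ^ (2 * d * (l - 1)) * (((h.map φ : (ZMod p)[X]) : (ZMod p)⟦X⟧) *
        (PowerSeries.C ((l : ZMod p) * e ^ (l - 1)) * ((u2.map φ : (ZMod p)[X]) : (ZMod p)⟦X⟧))) := by
    rw [← pow_add]
    have h2 : 2 * d * (l - 1) + 2 * d = 2 * m := by
      obtain ⟨l', rfl⟩ : ∃ l', l = l' + 1 := ⟨l - 1, by omega⟩
      rw [hm, Nat.add_sub_cancel]
      ring
    rw [h2]
    convert hrel3 using 1
    rw [mul_pow, ← pow_mul, map_mul, map_pow, map_natCast]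
    ring
  have h2 := (mul_dvd_mul_iff_left (pow_ne_zero _ PowerSeries.X_ne_zero)).1 h1
  have h3 := xpow_of_mul (by
    rw [map_mul, PowerSeries.constantCoeff_C, ← PowerSeries.coeff_zero_eq_constantCoeff_apply, Polynomial.coeff_coe, coeff_map]
    exact mul_ne_zero (mul_ne_zero hl (pow_ne_zero _ he)) hu) h2
  refine hhb (poly_zero h3 ?_)
  have := natDegree_map_le (f := φ) (p := h)
  omega

end Pool.Agent.X35.PE
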