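import Pool.Agent.X35.PE.Sec
import Pool.Agent.X174.WinFamC
import Pool.Agent.X35.GV.TwistT

/-! From counting to cubes around thin sequences. -/

set_option autoImplicit false

open Polynomial Filter Topology MeasureTheory

namespace Pool.Agent.X35.PE

lemma log_pow_le (E : ℕ) {ε : ℝ} (hε : 0 < ε) : ∃ C : ℝ, 0 ≤ C ∧ ∀ T : ℝ, 1 ≤ T → (1 + Real.log T) ^ E ≤ C * T ^ ε := by
  set ε' : ℝ := ε / (E + 1) with hε'
  have hε'0 : 0 < ε' := by positivity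
  refine ⟨(1 + 1 / ε') ^ E, by positivity, fun T hT => ?_⟩
  have hT0 : 0 ≤ T := by linarith
  have h1 : Real.log T ≤ T ^ ε' / ε' := Real.log_le_rpow_div hT0 hε'0
  have h2 : 1 ≤ T ^ ε' := Real.one_le_rpow hT hε'0.le
  have h3 : 1 + Real.log T ≤ (1 + 1 / ε') * T ^ ε' := by
    have : (1 + 1 / ε') * T ^ ε' = T ^ ε' + T ^ ε' / ε' := by ring
    rw [this]
    linarith
  have h4 : 0 ≤ Real.log T := Real.log_nonneg hT
  calc (1 + Real.log T) ^ E ≤ ((1 + 1 / ε') * T ^ ε') ^ E := pow_le_pow_left₀ (by positivity) h3 _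
    _ = (1 + 1 / ε') ^ E * T ^ (ε' * E) := by rw [mul_pow, ← Real.rpow_natCast (T ^ ε'), ← Real.rpow_mul hT0]
    _ ≤ (1 + 1 / ε') ^ E * T ^ ε := by
        apply mul_le_mul_of_nonneg_left _ (by positivity)
        apply Real.rpow_le_rpow_of_exponent_le hT
        rw [hε', div_mul_eq_mul_div, div_le_iff₀ (by positivity)]
        nlinarith

theorem near {r : ℕ} {ι : Type} [Countable ι] (Bs : ι → Set (Fin (r + 1) → ℤ))
    (hB : ∀ q : ι, ∃ C : ℝ, 0 ≤ C ∧ ∃ E : ℕ, ∀ T : ℝ, 1 ≤ T →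
      ({σ : Fin (r + 1) → ℤ | (∀ j, |(σ j : ℝ)| ≤ T) ∧ σ ∈ Bs q}).Finite ∧
      (({σ : Fin (r + 1) → ℤ | (∀ j, |(σ j : ℝ)| ≤ T) ∧ σ ∈ Bs q}).ncard : ℝ) ≤ C * (1 + Real.log T) ^ E * T ^ r)
    {v : ℕ → ℝ} {τ ρ : ℝ} (hv1 : ∀ i, 1 ≤ v i) (hτ : 0 ≤ τ) (hv : Pool.Agent.Y854.GM.ExpLe v τ) (hρ : ρ < 1) :
    ∃ E : Set (Fin (r + 1) → ℝ), dimH E ≤ ENNReal.ofReal ((r + τ) / (1 - ρ)) ∧ ∀ α : Fin (r + 1) → ℝ, α ∉ E →
      ∀ q : ι, ∀ c : ℝ, ∃ i₀ : ℕ, ∀ i : ℕ, i₀ ≤ i → ∀ σ : Fin (r + 1) → ℤ,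
        (∀ j, |(σ j : ℝ) - α j * v i| ≤ c * (v i) ^ ρ) → σ ∉ Bs q := by
  have h1ρ : 0 < 1 - ρ := by linarith
  have key : ∀ (k : ℕ) (q : ι), ∃ E : Set (Fin (r + 1) → ℝ),
      dimH E ≤ ENNReal.ofReal ((r + 1 / ((k : ℝ) + 1) + τ) / (1 - ρ)) ∧ ∀ α : Fin (r + 1) → ℝ, α ∉ E →
      ∀ c : ℝ, ∃ i₀ : ℕ, ∀ i : ℕ, i₀ ≤ i → ∀ σ : Fin (r + 1) → ℤ,
        (∀ j, |(σ j : ℝ) - α j * v i| ≤ c * (v i) ^ ρ) → σ ∉ Bs q := by
    intro k q
    obtain ⟨C, hC, E0, hc⟩ := hB q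
    obtain ⟨C', hC', hlog⟩ := log_pow_le E0 (show (0 : ℝ) < 1 / ((k : ℝ) + 1) by positivity)
    obtain ⟨E, hE1, hE2⟩ := Pool.Agent.X174.winFamC (κ := Fin (r + 1)) (Q := Fin (r + 1) → ℤ)
      (fun σ j => (σ j : ℝ)) (fun T => {σ : Fin (r + 1) → ℤ | (∀ j, |(σ j : ℝ)| ≤ T) ∧ σ ∈ Bs q})
      (s := r + 1 / ((k : ℝ) + 1)) (C := C * C') (by positivity)
      (fun T hT => by
        refine ⟨(hc T hT).1, (hc T hT).2.trans ?_⟩
        have hT0 : 0 < T := by linarith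
        have h1 := mul_le_mul_of_nonneg_left (hlog T hT) hC
        calc C * (1 + Real.log T) ^ E0 * T ^ r ≤ C * (C' * T ^ (1 / ((k : ℝ) + 1))) * T ^ r :=
              mul_le_mul_of_nonneg_right h1 (by positivity)
          _ = C * C' * T ^ ((r : ℝ) + 1 / ((k : ℝ) + 1)) := by
              rw [Real.rpow_add hT0, Real.rpow_natCast]
              ring)
      hv1 hτ hv hρ
    refine ⟨E, hE1, fun α hα c => ?_⟩
    obtain ⟨R, hR, hRc⟩ := Pool.Agent.X174.le_of_cubeC α c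
    obtain ⟨i₀, hi₀⟩ := hE2 α hα R hR c
    refine ⟨i₀, fun i hi σ hσ hσB => hi₀ i hi σ hσ ⟨fun j => ?_, hσB⟩⟩
    exact hRc (fun j => (σ j : ℝ)) (v i) ρ (hv1 i) hρ hσ j
  choose Es h1 h2 using key
  refine ⟨⋂ k, ⋃ q, Es k q, ?_, fun α hα q c => ?_⟩
  · have h3 : ∀ k : ℕ, dimH (⋂ k, ⋃ q, Es k q) ≤ ENNReal.ofReal ((r + 1 / ((k : ℝ) + 1) + τ) / (1 - ρ)) := fun k => by
      refine (dimH_mono (Set.iInter_subset _ k)).trans ?_
      rw [dimH_iUnion]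
      exact iSup_le fun q => h1 k q
    have h4 : Tendsto (fun k : ℕ => ENNReal.ofReal ((r + 1 / ((k : ℝ) + 1) + τ) / (1 - ρ))) atTop
        (𝓝 (ENNReal.ofReal ((r + 0 + τ) / (1 - ρ)))) := by
      apply ENNReal.tendsto_ofReal
      exact ((tendsto_const_nhds.add tendsto_one_div_add_atTop_nhds_zero_nat).add_const _).div_const _
    rw [add_zero] at h4
    exact ge_of_tendsto' h4 h3
  · obtain ⟨k, hk⟩ : ∃ k, α ∉ ⋃ q, Es k q := by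
      by_contra hcon
      push Not at hcon
      exact hα (Set.mem_iInter.2 hcon)
    exact h2 k q α (fun h => hk (Set.mem_iUnion.2 ⟨q, h⟩)) c

/-- the exceptional members of a family with a point -/
def Exc {r : ℕ} (n : ℕ) (f : (MvPolynomial (Fin r) ℤ)[X]) (x0 y0 : MvPolynomial (Fin r) ℤ) : Set (Fin r → ℤ) :=
  {σ | MvPolynomial.eval σ y0 = 0 ∨ Tors n (f.map (MvPolynomial.eval σ)) (MvPolynomial.eval σ x0)}

theorem count_exc {r n : ℕ} (hn : 1 ≤ n) {f : (MvPolynomial (Fin (r + 1)) ℤ)[X]} (hf : f.natDegree ≤ 2 * n)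
    {x0 y0 : MvPolynomial (Fin (r + 1)) ℤ} (hy : y0 ≠ 0) (h : y0 ^ 2 = f.eval x0) (hnt : ¬ Tors n f x0) :
    ∃ C : ℝ, 0 ≤ C ∧ ∃ E : ℕ, ∀ T : ℝ, 1 ≤ T →
      ({σ : Fin (r + 1) → ℤ | (∀ j, |(σ j : ℝ)| ≤ T) ∧ σ ∈ Exc n f x0 y0}).Finite ∧
      (({σ : Fin (r + 1) → ℤ | (∀ j, |(σ j : ℝ)| ≤ T) ∧ σ ∈ Exc n f x0 y0}).ncard : ℝ) ≤
        C * (1 + Real.log T) ^ E * T ^ r := by
  classical
  set g := reflect (2 * n) (tld n f x0 y0) with hg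
  have hgd : g.natDegree ≤ 2 * n := natDegree_refl_le (tld_deg _ _ _)
  have hg1 : g.coeff (2 * n) = 1 := by
    rw [hg, coeff_reflect, revAt_le le_rfl, Nat.sub_self, tld_coeff_zero]
  have hgp : ¬ Pell g := fun hp => hnt (tors_of_pell hn hf h hy hp)
  obtain ⟨C, hC, E, hc⟩ := count hn hgd hg1 hgp
  refine ⟨y0.totalDegree * 3 ^ r + C, by positivity, E, fun T hT => ?_⟩
  obtain ⟨hfin, hcard⟩ := hc T hT
  set S : Finset ℤ := Finset.Icc (-⌊T⌋) ⌊T⌋ with hS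
  have hfl : 1 ≤ ⌊T⌋ := Int.le_floor.2 (by exact_mod_cast hT)
  have hScard : (S.card : ℝ) ≤ 3 * T := by
    have h1 : (S.card : ℤ) = 2 * ⌊T⌋ + 1 := by
      rw [hS, Int.card_Icc, Int.toNat_of_nonneg (by omega)]
      ring
    have h2 : (S.card : ℝ) = 2 * ⌊T⌋ + 1 := by exact_mod_cast h1
    rw [h2]
    have := Int.floor_le T
    linarith
  have hSne : S.Nonempty := ⟨0, Finset.mem_Icc.2 ⟨by omega, by omega⟩⟩
  set Z : Finset (Fin (r + 1) → ℤ) :=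
    (Fintype.piFinset fun _ : Fin (r + 1) => S).filter fun σ => MvPolynomial.eval σ y0 = 0 with hZ
  have hsub : {σ : Fin (r + 1) → ℤ | (∀ j, |(σ j : ℝ)| ≤ T) ∧ σ ∈ Exc n f x0 y0} ⊆ (Z : Set (Fin (r + 1) → ℤ)) ∪ Bad g T := by
    rintro σ ⟨hσ, hσE⟩
    by_cases hy0 : MvPolynomial.eval σ y0 = 0
    · left
      rw [Finset.mem_coe, hZ, Finset.mem_filter, Fintype.mem_piFinset]
      refine ⟨fun j => ?_, hy0⟩
      have h1 := abs_le.1 (hσ j)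
      rw [hS, Finset.mem_Icc]
      refine ⟨?_, Int.le_floor.2 h1.2⟩
      have h2 : -(σ j) ≤ ⌊T⌋ := Int.le_floor.2 (by push_cast; linarith [h1.1])
      omega
    · right
      refine ⟨hσ, ?_⟩
      have ht := hσE.resolve_left hy0
      have h1 := pell_of_tors (n := n) (f := f.map (MvPolynomial.eval σ)) (natDegree_map_le.trans hf)
        (x0 := MvPolynomial.eval σ x0) (y0 := MvPolynomial.eval σ y0) (by
          rw [← map_pow, h, eval_map, eval₂_at_apply]) hy0 ht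
      rw [hg, ← reflect_map, tld_map _ hf]
      exact h1
  have hfin2 : ((Z : Set (Fin (r + 1) → ℤ)) ∪ Bad g T).Finite := (Finset.finite_toSet _).union hfin
  refine ⟨hfin2.subset hsub, ?_⟩
  have hZc : (Z.card : ℝ) ≤ y0.totalDegree * 3 ^ r * T ^ r := by
    have h1 : (Z.card : ℝ) ≤ y0.totalDegree * (S.card : ℝ) ^ r := by exact_mod_cast zeros_box hy S hSne
    refine h1.trans ?_
    rw [mul_assoc, ← mul_pow]
    gcongr
  have h1 : ({σ : Fin (r + 1) → ℤ | (∀ j, |(σ j : ℝ)| ≤ T) ∧ σ ∈ Exc n f x0 y0}).ncard ≤ Z.card + (Bad g T).ncard := by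
    refine (Set.ncard_le_ncard hsub hfin2).trans ((Set.ncard_union_le _ _).trans ?_)
    rw [Set.ncard_coe_finset]
  have hlog : 1 ≤ (1 + Real.log T) ^ E := one_le_pow₀ (by linarith [Real.log_nonneg hT])
  calc _ ≤ (Z.card : ℝ) + ((Bad g T).ncard : ℝ) := by exact_mod_cast h1
    _ ≤ y0.totalDegree * 3 ^ r * T ^ r + C * (1 + Real.log T) ^ E * T ^ r := add_le_add hZc hcard
    _ ≤ (y0.totalDegree * 3 ^ r + C) * (1 + Real.log T) ^ E * T ^ r := by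
        have h2 : 0 ≤ (y0.totalDegree : ℝ) * 3 ^ r * T ^ r := by positivity
        nlinarith

end Pool.Agent.X35.PE
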