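import Pool.Agent.X35.PE.Count

/-! Arbitrary points on hyperelliptic curves. -/

set_option autoImplicit false

open Polynomial

namespace Pool.Agent.X35.PE

open scoped PowerSeries

/-- some nonzero multiple of the class of `P - ιP` is zero, `P = (x₀, y₀)` on `y² = f(x)`, `deg f ≤ 2 n`: there are
`a`, `b ≠ 0` and a constant `c ≠ 0` with `a² - f b² = c (x - x₀)^(2m)`, `deg a ≤ m`, `deg b ≤ m - n` -/
def Tors {R : Type*} [CommRing R] (n : ℕ) (f : R[X]) (x0 : R) : Prop :=
  ∃ (m : ℕ) (a b : R[X]) (c : R), b ≠ 0 ∧ c ≠ 0 ∧ a.natDegree ≤ m ∧ b.natDegree + n ≤ m ∧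
    a ^ 2 - f * b ^ 2 = C c * (X - C x0) ^ (2 * m)

section
variable {R : Type*} [CommRing R]

/-- `f(x₀ + y₀² x) / y₀²` -/
noncomputable def tld (n : ℕ) (f : R[X]) (x0 y0 : R) : R[X] :=
  1 + ∑ i ∈ Finset.range (2 * n), C ((taylor x0 f).coeff (i + 1) * y0 ^ (2 * i)) * X ^ (i + 1)

lemma tld_coeff_zero (n : ℕ) (f : R[X]) (x0 y0 : R) : (tld n f x0 y0).coeff 0 = 1 := by
  rw [tld, coeff_add, finsetSum_coeff, Finset.sum_eq_zero]
  · simp
  · intro i _
    rw [coeff_C_mul, coeff_X_pow, if_neg (by omega), mul_zero]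

lemma tld_coeff_succ {n : ℕ} {f : R[X]} (hf : f.natDegree ≤ 2 * n) (x0 y0 : R) (i : ℕ) :
    (tld n f x0 y0).coeff (i + 1) = (taylor x0 f).coeff (i + 1) * y0 ^ (2 * i) := by
  rw [tld, coeff_add, finsetSum_coeff, coeff_one, if_neg (by omega), zero_add]
  simp only [coeff_C_mul, coeff_X_pow]
  by_cases hi : i < 2 * n
  · rw [Finset.sum_eq_single i]
    · simp
    · intro b _ hb
      rw [if_neg (by omega), mul_zero]
    · intro h; exact absurd (Finset.mem_range.2 hi) h
  · rw [Finset.sum_eq_zero]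
    · rw [coeff_eq_zero_of_natDegree_lt (by rw [natDegree_taylor]; omega), zero_mul]
    · intro b hb
      have := Finset.mem_range.1 hb
      rw [if_neg (by omega), mul_zero]

lemma tld_deg {n : ℕ} (f : R[X]) (x0 y0 : R) : (tld n f x0 y0).natDegree ≤ 2 * n := by
  rw [tld]
  refine (natDegree_add_le _ _).trans (max_le (by rw [natDegree_one]; omega) ?_)
  apply natDegree_sum_le_of_forall_le
  intro i hi
  refine (natDegree_C_mul_X_pow_le _ _).trans ?_
  have := Finset.mem_range.1 hi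
  omega

lemma tld_map {S : Type*} [CommRing S] (φ : R →+* S) {n : ℕ} {f : R[X]} (hf : f.natDegree ≤ 2 * n) (x0 y0 : R) :
    (tld n f x0 y0).map φ = tld n (f.map φ) (φ x0) (φ y0) := by
  ext i
  rcases i with _ | i
  · rw [coeff_map, tld_coeff_zero, tld_coeff_zero, map_one]
  · rw [coeff_map, tld_coeff_succ hf, tld_coeff_succ (natDegree_map_le.trans hf), map_mul, map_pow]
    congr 1
    rw [← coeff_map]
    congr 1
    simp only [taylor_apply, Polynomial.map_comp, Polynomial.map_add, map_X, map_C]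

/-- the substitution `x = x₀ + y₀² T` -/
noncomputable def th (x0 y0 : R) (g : R[X]) : R[X] := (taylor x0 g).comp (C (y0 ^ 2) * X)

lemma th_coeff (x0 y0 : R) (g : R[X]) (i : ℕ) : (th x0 y0 g).coeff i = (taylor x0 g).coeff i * (y0 ^ 2) ^ i := by
  rw [th, comp_C_mul_X_coeff]

lemma th_deg (x0 y0 : R) {g : R[X]} {N : ℕ} (hg : g.natDegree ≤ N) : (th x0 y0 g).natDegree ≤ N := by
  rw [natDegree_le_iff_coeff_eq_zero]
  intro i hi
  rw [th_coeff, coeff_eq_zero_of_natDegree_lt (by rw [natDegree_taylor]; omega), zero_mul]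

lemma th_f {n : ℕ} {f : R[X]} (hf : f.natDegree ≤ 2 * n) {x0 y0 : R} (h : y0 ^ 2 = f.eval x0) :
    th x0 y0 f = C (y0 ^ 2) * tld n f x0 y0 := by
  ext i
  rw [th_coeff, coeff_C_mul]
  rcases i with _ | i
  · rw [tld_coeff_zero, taylor_coeff_zero, h]
    ring
  · rw [tld_coeff_succ hf]
    ring

lemma th_sol (x0 y0 : R) (a b f : R[X]) (c : R) (m : ℕ) :
    th x0 y0 (a ^ 2 - f * b ^ 2 - C c * (X - C x0) ^ (2 * m)) =
      (th x0 y0 a) ^ 2 - th x0 y0 f * (th x0 y0 b) ^ 2 - C c * (C (y0 ^ 2) * X) ^ (2 * m) := by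
  have h1 : taylor x0 (X - C x0) = X := by
    rw [map_sub, taylor_X, taylor_C, add_sub_cancel_right]
  rw [th, th, th, th, map_sub, map_sub, taylor_mul, taylor_mul, taylor_pow, taylor_pow, taylor_pow, taylor_C, h1,
    sub_comp, sub_comp, mul_comp, mul_comp, pow_comp, pow_comp, pow_comp, C_comp, X_comp]

variable [IsDomain R]

lemma th_inj {x0 y0 : R} (hy : y0 ≠ 0) {g : R[X]} (h : th x0 y0 g = 0) : g = 0 := by
  have h1 : taylor x0 g = 0 := by
    ext i
    have h2 := congrArg (fun g : R[X] => g.coeff i) h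
    simp only [th_coeff, coeff_zero] at h2
    exact (mul_eq_zero.1 h2).resolve_right (pow_ne_zero _ (pow_ne_zero _ hy))
  exact taylor_injective x0 (by rw [h1, map_zero])

omit [IsDomain R] in
lemma th_surj {x0 y0 : R} {q : R[X]} {N k : ℕ} (hq : q.natDegree ≤ N) (hk : 2 * N ≤ k) :
    ∃ a : R[X], a.natDegree ≤ N ∧ th x0 y0 a = C (y0 ^ k) * q := by
  set g : R[X] := ∑ i ∈ Finset.range (N + 1), C (q.coeff i * y0 ^ (k - 2 * i)) * X ^ i with hg
  have hgdeg : g.natDegree ≤ N := by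
    rw [hg]
    apply natDegree_sum_le_of_forall_le
    intro e he
    refine (natDegree_C_mul_X_pow_le _ _).trans ?_
    have := Finset.mem_range.1 he
    omega
  refine ⟨taylor (-x0) g, by rwa [natDegree_taylor], ?_⟩
  ext i
  rw [th_coeff, taylor_taylor, add_neg_cancel, taylor_zero, coeff_C_mul, hg, finsetSum_coeff]
  simp only [coeff_C_mul, coeff_X_pow]
  by_cases hi : i < N + 1
  · rw [Finset.sum_eq_single i]
    · rw [if_pos rfl, mul_one]
      have : y0 ^ k = y0 ^ (k - 2 * i) * (y0 ^ 2) ^ i := by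
        rw [← pow_mul, ← pow_add]
        congr 1
        omega
      rw [this]
      ring
    · intro b _ hb
      rw [if_neg (fun h => hb h.symm), mul_zero]
    · intro h; exact absurd (Finset.mem_range.2 hi) h
  · rw [Finset.sum_eq_zero, coeff_eq_zero_of_natDegree_lt (by omega)]
    · ring
    · intro b hb
      have := Finset.mem_range.1 hb
      rw [if_neg (by omega), mul_zero]

/-- from a point to infinity -/
lemma pell_of_tors {n : ℕ} {f : R[X]} (hf : f.natDegree ≤ 2 * n) {x0 y0 : R} (h : y0 ^ 2 = f.eval x0) (hy : y0 ≠ 0)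
    (ht : Tors n f x0) : Pell (reflect (2 * n) (tld n f x0 y0)) := by
  obtain ⟨m, a, b, c, hb, hc, had, hbd, hab⟩ := ht
  have h1 := th_sol x0 y0 a b f c m
  rw [hab, sub_self] at h1
  have h0 : th x0 y0 (0 : R[X]) = 0 := by rw [th, map_zero, zero_comp]
  rw [h0, th_f hf h] at h1
  set P := th x0 y0 a with hP
  set Q := C y0 * th x0 y0 b with hQ
  have hPd : P.natDegree ≤ m := th_deg _ _ had
  have hQd : Q.natDegree ≤ m - n := (natDegree_C_mul_le _ _).trans (th_deg _ _ (by omega))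
  have hQ0 : Q ≠ 0 := mul_ne_zero (C_ne_zero.2 hy) fun h => hb (th_inj hy h)
  have h2 : P ^ 2 - Q ^ 2 * tld n f x0 y0 = C (c * (y0 ^ 2) ^ (2 * m)) * X ^ (2 * m) := by
    have h3 : Q ^ 2 * tld n f x0 y0 = C (y0 ^ 2) * tld n f x0 y0 * th x0 y0 b ^ 2 := by
      rw [hQ, mul_pow, ← C_pow]
      ring
    have h4 : (C (c * (y0 ^ 2) ^ (2 * m)) : R[X]) * X ^ (2 * m) = C c * (C (y0 ^ 2) * X) ^ (2 * m) := by
      rw [C_mul, mul_pow, ← C_pow (a := y0 ^ 2), mul_assoc]
    rw [h3, h4]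
    linear_combination -h1
  refine ⟨reflect m P, reflect (m - n) Q, c * (y0 ^ 2) ^ (2 * m), by rwa [Ne, reflect_eq_zero_iff],
    mul_ne_zero hc (pow_ne_zero _ (pow_ne_zero _ hy)), ?_⟩
  have h3 : reflect (2 * m) (P ^ 2 - Q ^ 2 * tld n f x0 y0) =
      (reflect m P) ^ 2 - (reflect (m - n) Q) ^ 2 * reflect (2 * n) (tld n f x0 y0) := by
    rw [reflect_sub]
    congr 1
    · rw [pow_two, pow_two, two_mul, reflect_mul _ _ hPd hPd]
    · have h2 : 2 * m = ((m - n) + (m - n)) + 2 * n := by omega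
      rw [h2, pow_two, pow_two, reflect_mul _ _ (natDegree_mul_le.trans (by omega)) (tld_deg _ _ _),
        reflect_mul _ _ (by omega) (by omega)]
  rw [mul_comm (reflect (2 * n) (tld n f x0 y0)), ← h3, h2, reflect_C_mul_X_pow, revAt_le le_rfl, Nat.sub_self, pow_zero,
    mul_one]

/-- from infinity to a point -/
lemma tors_of_pell {n : ℕ} (hn : 1 ≤ n) {f : R[X]} (hf : f.natDegree ≤ 2 * n) {x0 y0 : R} (h : y0 ^ 2 = f.eval x0) (hy : y0 ≠ 0)
    (hp : Pell (reflect (2 * n) (tld n f x0 y0))) : Tors n f x0 := by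
  obtain ⟨a, b, c, hb, hc, hab⟩ := hp
  set g := reflect (2 * n) (tld n f x0 y0) with hg
  have hgd : g.natDegree ≤ 2 * n := natDegree_refl_le (tld_deg _ _ _)
  set M := b.natDegree + n with hM
  have ha : a.natDegree ≤ M := by
    have h1 : a ^ 2 = g * b ^ 2 + C c := by linear_combination hab
    have h2 : (a ^ 2).natDegree ≤ 2 * M := by
      rw [h1]
      refine (natDegree_add_le _ _).trans (max_le ?_ (by rw [natDegree_C]; omega))
      refine natDegree_mul_le.trans ?_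
      rw [natDegree_pow]
      omega
    rw [natDegree_pow] at h2
    omega
  have h2 : (reflect M a) ^ 2 - (reflect (M - n) b) ^ 2 * tld n f x0 y0 = C c * X ^ (2 * M) := by
    have h3 : reflect (2 * M) (a ^ 2 - g * b ^ 2) = (reflect M a) ^ 2 - (reflect (M - n) b) ^ 2 * tld n f x0 y0 := by
      rw [reflect_sub, mul_comm g]
      congr 1
      · rw [pow_two, pow_two, two_mul, reflect_mul _ _ ha ha]
      · have h2 : 2 * M = ((M - n) + (M - n)) + 2 * n := by omega
        rw [h2, pow_two, pow_two, reflect_mul _ _ (natDegree_mul_le.trans (by omega)) hgd,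
          reflect_mul _ _ (by omega) (by omega), hg, reflect_reflect]
    rw [← h3, hab, reflect_C]
  set P := reflect M a with hP
  set Q := reflect (M - n) b with hQ
  have hPd : P.natDegree ≤ M := natDegree_refl_le ha
  have hQd : Q.natDegree ≤ M - n := natDegree_refl_le (by omega)
  have hQ0 : Q ≠ 0 := by rwa [hQ, Ne, reflect_eq_zero_iff]
  obtain ⟨a', ha', hta⟩ := th_surj (x0 := x0) (y0 := y0) (k := 2 * M) hPd (by omega)
  obtain ⟨b', hb', htb⟩ := th_surj (x0 := x0) (y0 := y0) (k := 2 * M - 1) hQd (by omega)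
  have hb'0 : b' ≠ 0 := by
    rintro rfl
    have h0 : th x0 y0 (0 : R[X]) = 0 := by rw [th, map_zero, zero_comp]
    rw [h0] at htb
    exact mul_ne_zero (C_ne_zero.2 (pow_ne_zero _ hy)) hQ0 htb.symm
  refine ⟨M, a', b', c, hb'0, hc, ha', by omega, sub_eq_zero.1 (th_inj (x0 := x0) hy ?_)⟩
  rw [th_sol, hta, htb, th_f hf h]
  have h4 : (C (y0 ^ (2 * M)) : R[X]) ^ 2 = C (y0 ^ 2) * C (y0 ^ (2 * M - 1)) ^ 2 := by
    rw [← C_pow, ← C_pow, ← C_mul, ← pow_mul, ← pow_mul, ← pow_add]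
    congr 2
    omega
  have h5 : (C (y0 ^ 2) * X : R[X]) ^ (2 * M) = C (y0 ^ (2 * M)) ^ 2 * X ^ (2 * M) := by
    rw [mul_pow, ← C_pow, ← C_pow, ← pow_mul, ← pow_mul]
    congr 3
    ring
  rw [h5, mul_pow, mul_pow]
  linear_combination (C (y0 ^ (2 * M)) ^ 2) * h2 + (Q ^ 2 * tld n f x0 y0) * h4

end

end Pool.Agent.X35.PE
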