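import Pool.Agent.X35.PE.Bound

/-! The square root as a power series with integral coefficients, and its degrees in the parameters. -/

set_option autoImplicit false

open Polynomial

namespace Pool.Agent.X35.PE

open scoped PowerSeries

/-- `f` read at infinity, in the variable `4 x` -/
noncomputable def Fp {R : Type*} [CommRing R] (n : ℕ) (f : R[X]) : R[X] := (reflect (2 * n) f).comp (C 4 * X)

lemma coeff_Fp {R : Type*} [CommRing R] (n : ℕ) (f : R[X]) (i : ℕ) :
    (Fp n f).coeff i = (reflect (2 * n) f).coeff i * 4 ^ i := by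
  rw [Fp, comp_C_mul_X_coeff]

lemma Fp_map {R S : Type*} [CommRing R] [CommRing S] (φ : R →+* S) (n : ℕ) (f : R[X]) :
    (Fp n f).map φ = Fp n (f.map φ) := by
  ext i
  rw [coeff_map, coeff_Fp, coeff_Fp, reflect_map, coeff_map, map_mul, map_pow, map_ofNat]

lemma Fp_deg {R : Type*} [CommRing R] {n : ℕ} {f : R[X]} (hf : f.natDegree ≤ 2 * n) : (Fp n f).natDegree ≤ 2 * n := by
  rw [natDegree_le_iff_coeff_eq_zero]
  intro i hi
  rw [coeff_Fp, coeff_eq_zero_of_natDegree_lt (lt_of_le_of_lt (natDegree_refl_le hf) hi), zero_mul]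

/-- coefficients of the solution of `y + y² = x G` -/
noncomputable def cs {R : Type*} [CommRing R] (G : ℕ → R) : ℕ → R
  | 0 => 0
  | (k + 1) => G k - ∑ i : Fin k, cs G (i + 1) * cs G (k - i)
decreasing_by
  all_goals simp_wf
  all_goals omega

lemma cs_eq {R : Type*} [CommRing R] (G : ℕ → R) :
    PowerSeries.mk (cs G) + PowerSeries.mk (cs G) ^ 2 = PowerSeries.X * PowerSeries.mk G := by
  ext k
  rcases k with _ | k
  · simp [pow_two, cs]
  · rw [map_add, PowerSeries.coeff_mk, mul_comm PowerSeries.X, PowerSeries.coeff_succ_mul_X, PowerSeries.coeff_mk, pow_two,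
      PowerSeries.coeff_mul, Finset.Nat.sum_antidiagonal_eq_sum_range_succ_mk, Finset.sum_range_succ, Finset.sum_range_succ']
    simp only [PowerSeries.coeff_mk]
    have h0 : cs G 0 = 0 := by rw [cs]
    rw [Nat.sub_self, h0, mul_zero, zero_mul, add_zero, add_zero, cs, Finset.sum_range]
    have : ∀ i : Fin k, cs G (i + 1) * cs G (k - i) = cs G (i + 1) * cs G (k + 1 - (i + 1)) := fun i => by
      rw [Nat.add_sub_add_right]
    rw [Finset.sum_congr rfl fun i _ => this i]
    ring

/-- the square root -/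
noncomputable def sq {R : Type*} [CommRing R] (n : ℕ) (f : R[X]) : R⟦X⟧ :=
  1 + 2 * PowerSeries.mk (cs fun k => (reflect (2 * n) f).coeff (k + 1) * 4 ^ k)

lemma sq_sq {R : Type*} [CommRing R] {n : ℕ} {f : R[X]} (hf : f.coeff (2 * n) = 1) :
    (sq n f) ^ 2 = ((Fp n f : R[X]) : R⟦X⟧) := by
  have h1 := cs_eq fun k => (reflect (2 * n) f).coeff (k + 1) * 4 ^ k
  have h2 : (sq n f) ^ 2 = 1 + 4 * (PowerSeries.X * PowerSeries.mk fun k => (reflect (2 * n) f).coeff (k + 1) * 4 ^ k) := by
    rw [← h1, sq]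
    ring
  rw [h2]
  ext k
  rw [Polynomial.coeff_coe, coeff_Fp]
  rcases k with _ | k
  · rw [map_add, coeff_reflect, revAt_le (by omega), Nat.sub_zero, hf]
    simp
  · rw [map_add, show (4 : R⟦X⟧) = PowerSeries.C (4 : R) from (map_ofNat _ 4).symm, PowerSeries.coeff_C_mul,
      mul_comm PowerSeries.X, PowerSeries.coeff_succ_mul_X, PowerSeries.coeff_mk, PowerSeries.coeff_one,
      if_neg (by omega), zero_add]
    ring

lemma sq_zero {R : Type*} [CommRing R] (n : ℕ) (f : R[X]) : PowerSeries.constantCoeff (sq n f) = 1 := by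
  rw [sq, map_add, map_mul, ← PowerSeries.coeff_zero_eq_constantCoeff_apply (PowerSeries.mk _), PowerSeries.coeff_mk, cs]
  simp

lemma cs_map {R S : Type*} [CommRing R] [CommRing S] (φ : R →+* S) (G : ℕ → R) (k : ℕ) :
    φ (cs G k) = cs (fun i => φ (G i)) k := by
  induction k using Nat.strong_induction_on with
  | _ k ih =>
    rcases k with _ | k
    · rw [cs, cs, map_zero]
    · rw [cs, cs, map_sub, map_sum]
      congr 1
      refine Finset.sum_congr rfl fun i _ => ?_
      rw [map_mul, ih _ (by omega), ih _ (by omega)]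

lemma sq_map {R S : Type*} [CommRing R] [CommRing S] (φ : R →+* S) (n : ℕ) (f : R[X]) :
    PowerSeries.map φ (sq n f) = sq n (f.map φ) := by
  rw [sq, sq, map_add, map_one, map_mul, map_ofNat]
  congr 2
  ext k
  rw [PowerSeries.coeff_map, PowerSeries.coeff_mk, PowerSeries.coeff_mk, cs_map]
  congr 1
  ext i
  rw [map_mul, map_pow, map_ofNat, reflect_map, coeff_map]

/-- degrees in the parameters -/
lemma cs_deg {r : ℕ} {G : ℕ → MvPolynomial (Fin r) ℤ} {D : ℕ} (hG : ∀ k, (G k).totalDegree ≤ D) (k : ℕ) :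
    (cs G k).totalDegree ≤ D * k := by
  induction k using Nat.strong_induction_on with
  | _ k ih =>
    rcases k with _ | k
    · rw [cs]; simp
    · rw [cs]
      refine (MvPolynomial.totalDegree_sub _ _).trans (max_le ?_ ?_)
      · exact (hG k).trans (Nat.le_mul_of_pos_right D (by omega))
      · refine MvPolynomial.totalDegree_finsetSum_le fun i _ => ?_
        refine (MvPolynomial.totalDegree_mul _ _).trans ?_
        have h1 := ih (i + 1) (by omega)
        have h2 := ih (k - i) (by omega)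
        calc _ ≤ D * (i + 1) + D * (k - i) := by omega
          _ = D * (k + 1) := by
            rw [← Nat.mul_add]
            congr 1
            omega

lemma sq_deg {r n : ℕ} {f : (MvPolynomial (Fin r) ℤ)[X]} {D : ℕ} (hf : ∀ i, (f.coeff i).totalDegree ≤ D) (k : ℕ) :
    (PowerSeries.coeff k (sq n f)).totalDegree ≤ D * k := by
  have hG : ∀ k, ((reflect (2 * n) f).coeff (k + 1) * 4 ^ k : MvPolynomial (Fin r) ℤ).totalDegree ≤ D := fun k => by
    refine (MvPolynomial.totalDegree_mul _ _).trans ?_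
    have h1 : ((4 : MvPolynomial (Fin r) ℤ) ^ k).totalDegree = 0 := by
      have : (4 : MvPolynomial (Fin r) ℤ) ^ k = MvPolynomial.C (4 ^ k) := by
        rw [map_pow, map_ofNat]
      rw [this, MvPolynomial.totalDegree_C]
    rw [h1, add_zero, coeff_reflect]
    exact hf _
  rw [sq, map_add, show (2 : (MvPolynomial (Fin r) ℤ)⟦X⟧) = PowerSeries.C (2 : MvPolynomial (Fin r) ℤ) from (map_ofNat _ 2).symm,
    PowerSeries.coeff_C_mul, PowerSeries.coeff_mk]
  refine (MvPolynomial.totalDegree_add _ _).trans (max_le ?_ ?_)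
  · rw [PowerSeries.coeff_one]
    split_ifs <;> simp
  · refine (MvPolynomial.totalDegree_mul _ _).trans ?_
    have h1 : (2 : MvPolynomial (Fin r) ℤ).totalDegree = 0 := by
      have : (2 : MvPolynomial (Fin r) ℤ) = MvPolynomial.C 2 := by rw [map_ofNat]
      rw [this, MvPolynomial.totalDegree_C]
    rw [h1, zero_add]
    exact cs_deg hG k

end Pool.Agent.X35.PE
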