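import Pool.Agent.X35.PE.Gram
import Pool.Agent.TH862.PrimeBd

/-! Small primes of good reduction in a family. -/

set_option autoImplicit false

open Polynomial

namespace Pool.Agent.X35.PE

open scoped PowerSeries

/-- two small odd primes not dividing `N` -/
lemma two_primes {N : ℤ} (hN : N ≠ 0) {K : ℕ} (hK : N.natAbs ≤ 2 ^ K) : ∃ p q : ℕ, p.Prime ∧ q.Prime ∧ p ≠ q ∧
    p ≠ 2 ∧ q ≠ 2 ∧ ¬ (p : ℤ) ∣ N ∧ ¬ (q : ℤ) ∣ N ∧ p ≤ 4 * (K + 3) ^ 2 ∧ q ≤ 4 * (K + 3) ^ 2 := by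
  classical
  set S : Finset ℕ := (Finset.range (K + 3)).image (fun k => Nat.nth Nat.Prime k) with hS
  have hcard : S.card = K + 3 := by
    rw [hS, Finset.card_image_of_injective _ (Nat.nth_injective Nat.infinite_setOfPred_prime), Finset.card_range]
  have hpf : N.natAbs.primeFactors.card ≤ K := by
    have h1 : 2 ^ N.natAbs.primeFactors.card ≤ ∏ p ∈ N.natAbs.primeFactors, p :=
      Finset.pow_card_le_prod _ _ _ fun p hp => (Nat.prime_of_mem_primeFactors hp).two_le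
    have h2 : ∏ p ∈ N.natAbs.primeFactors, p ≤ N.natAbs :=
      Nat.le_of_dvd (Int.natAbs_pos.2 hN) (Nat.prod_primeFactors_dvd _)
    exact (Nat.pow_le_pow_iff_right (by norm_num)).1 ((h1.trans h2).trans hK)
  set S' := S \ (N.natAbs.primeFactors ∪ {2}) with hS'
  have hcard' : 2 ≤ S'.card := by
    have h1 := Finset.le_card_sdiff (N.natAbs.primeFactors ∪ {2}) S
    have h2 := Finset.card_union_le N.natAbs.primeFactors {2}
    rw [Finset.card_singleton] at h2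
    rw [hS']
    omega
  obtain ⟨p, hp, q, hq, hpq⟩ := Finset.one_lt_card.1 hcard'
  have key : ∀ p ∈ S', p.Prime ∧ p ≠ 2 ∧ ¬ (p : ℤ) ∣ N ∧ p ≤ 4 * (K + 3) ^ 2 := by
    intro p hp
    rw [hS', Finset.mem_sdiff, Finset.mem_union, Finset.mem_singleton, hS, Finset.mem_image] at hp
    obtain ⟨⟨k, hk, rfl⟩, h2⟩ := hp
    push Not at h2
    refine ⟨Nat.prime_nth_prime k, h2.2, fun h => h2.1 ?_, ?_⟩
    · rw [Nat.mem_primeFactors]
      exact ⟨Nat.prime_nth_prime k, Int.natCast_dvd.1 h, Int.natAbs_ne_zero.2 hN⟩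
    · refine (Pool.Agent.TH862.EA.nth_prime_le k).trans ?_
      have := Finset.mem_range.1 hk
      exact Nat.mul_le_mul_left 4 (Nat.pow_le_pow_left (by omega) 2)
  obtain ⟨h1, h2, h3, h4⟩ := key p hp
  obtain ⟨h1', h2', h3', h4'⟩ := key q hq
  exact ⟨p, q, h1, h1', hpq, h2, h2', h3, h3', h4, h4'⟩

/-- good primes -/
lemma nonsq_mod {F : ℤ[X]} {s : ℤ⟦X⟧} (hs : s ^ 2 = (F : ℤ⟦X⟧)) {n i : ℕ} (hi : n < i)
    (hF : F.natDegree ≤ 2 * n) {p : ℕ} [Fact p.Prime] (hp : ¬ (p : ℤ) ∣ PowerSeries.coeff i s) :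
    ∀ R : (ZMod p)[X], R ^ 2 ≠ F.map (Int.castRingHom (ZMod p)) := by
  intro R hR
  set φ : ℤ →+* ZMod p := Int.castRingHom (ZMod p) with hφ
  have h1 : (R : (ZMod p)⟦X⟧) ^ 2 = (PowerSeries.map φ s) ^ 2 := by
    rw [← map_pow, hs, ← Polynomial.polynomial_map_coe, ← hR, Polynomial.coe_pow]
  have hdeg : R.natDegree ≤ n := by
    have h2 : (R ^ 2).natDegree ≤ 2 * n := by
      rw [hR]
      exact natDegree_map_le.trans hF
    rw [natDegree_pow] at h2
    omega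
  have h2 : PowerSeries.coeff i (PowerSeries.map φ s) = 0 := by
    have h3 : ((R : (ZMod p)⟦X⟧) - PowerSeries.map φ s) * ((R : (ZMod p)⟦X⟧) + PowerSeries.map φ s) = 0 := by
      linear_combination h1
    have h4 : PowerSeries.coeff i (R : (ZMod p)⟦X⟧) = 0 := by
      rw [Polynomial.coeff_coe]
      exact coeff_eq_zero_of_natDegree_lt (by omega)
    rcases mul_eq_zero.1 h3 with h | h
    · rw [← sub_eq_zero.1 h, h4]
    · have := congrArg (PowerSeries.coeff i) (eq_neg_of_add_eq_zero_right h)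
      rw [this, map_neg, h4, neg_zero]
  rw [PowerSeries.coeff_map, hφ, eq_intCast, ZMod.intCast_zmod_eq_zero_iff_dvd] at h2
  exact hp h2

/-- a coefficient which is not zero -/
lemma exists_coeff {F : ℤ[X]} {s : ℤ⟦X⟧} (hs : s ^ 2 = (F : ℤ⟦X⟧)) (hs0 : PowerSeries.constantCoeff s = 1) {n m : ℕ}
    (hn : 1 ≤ n) (hF : F.natDegree ≤ 2 * n) (hU : HasU F s n m) : ∃ i, n < i ∧ i ≤ 2 * n ∧ PowerSeries.coeff i s ≠ 0 := by
  by_contra hcon
  push Not at hcon
  set h : ℤ[X] := PowerSeries.trunc (n + 1) s with hh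
  have hdeg : h.natDegree ≤ n := by
    rw [hh]
    have := PowerSeries.natDegree_trunc_lt s n
    omega
  have h1 : (PowerSeries.X : ℤ⟦X⟧) ^ (2 * n + 1) ∣ s - (h : ℤ⟦X⟧) := by
    rw [PowerSeries.X_pow_dvd_iff]
    intro i hi
    rw [map_sub, Polynomial.coeff_coe, hh, PowerSeries.coeff_trunc]
    split_ifs with h
    · rw [sub_self]
    · rw [sub_zero]
      exact hcon i (by omega) (by omega)
  have h2 : F - h ^ 2 = 0 := by
    refine poly_zero (k := 2 * n + 1) ?_ ?_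
    · have : ((F - h ^ 2 : ℤ[X]) : ℤ⟦X⟧) = (s - (h : ℤ⟦X⟧)) * (s + (h : ℤ⟦X⟧)) := by
        push_cast
        rw [← hs]
        ring
      rw [this]
      exact Dvd.dvd.mul_right h1 _
    · refine Nat.lt_succ_of_le ((natDegree_sub_le _ _).trans (max_le hF ?_))
      refine natDegree_pow_le.trans ?_
      omega
  have h3 : s = (h : ℤ⟦X⟧) := by
    have h4 : (s - (h : ℤ⟦X⟧)) * (s + (h : ℤ⟦X⟧)) = 0 := by
      have h5 : ((F - h ^ 2 : ℤ[X]) : ℤ⟦X⟧) = 0 := by rw [h2, Polynomial.coe_zero]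
      push_cast at h5
      rw [← hs] at h5
      linear_combination h5
    rcases mul_eq_zero.1 h4 with h | h
    · exact sub_eq_zero.1 h
    · exfalso
      have h6 := congrArg PowerSeries.constantCoeff h
      rw [map_add, hs0, map_zero] at h6
      have h7 := PowerSeries.X_pow_dvd_iff.1 h1 0 (by omega)
      rw [PowerSeries.coeff_zero_eq_constantCoeff_apply, map_sub, hs0] at h7
      linarith
  obtain ⟨a, b, h4, h5, h6, ⟨c, hc, h7⟩, h8⟩ := hU
  have h9 : a - b * h = 0 := by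
    refine poly_zero (k := 2 * m) ?_ ?_
    · push_cast
      rw [← h3]
      exact h8
    · refine lt_of_le_of_lt (natDegree_sub_le _ _) (max_lt (by omega) ?_)
      refine lt_of_le_of_lt natDegree_mul_le ?_
      omega
  have h10 : a ^ 2 - b ^ 2 * F = 0 := by
    have h11 : a = b * h := sub_eq_zero.1 h9
    have h12 : F = h ^ 2 := sub_eq_zero.1 h2
    rw [h11, h12]
    ring
  rw [h7] at h10
  rcases mul_eq_zero.1 h10 with h | h
  · exact hc (C_eq_zero.1 h)
  · exact absurd h (pow_ne_zero _ X_ne_zero)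

/-- the values of a polynomial grow at most like a power -/
lemma eval_le {r : ℕ} (g : MvPolynomial (Fin r) ℤ) : ∃ C : ℝ, 0 ≤ C ∧ ∃ k : ℕ, ∀ T : ℝ, 1 ≤ T → ∀ σ : Fin r → ℤ,
    (∀ j, |(σ j : ℝ)| ≤ T) → |((MvPolynomial.eval σ g : ℤ) : ℝ)| ≤ C * T ^ k := by
  induction g using MvPolynomial.induction_on with
  | C a => exact ⟨|(a : ℝ)|, abs_nonneg _, 0, fun T hT σ _ => by simp⟩
  | add p q hp hq =>
    obtain ⟨C, hC, k, h⟩ := hp
    obtain ⟨C', hC', k', h'⟩ := hq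
    refine ⟨C + C', by positivity, k + k', fun T hT σ hσ => ?_⟩
    have h1 := h T hT σ hσ
    have h2 := h' T hT σ hσ
    rw [map_add, Int.cast_add]
    have h3 : C * T ^ k ≤ C * T ^ (k + k') := mul_le_mul_of_nonneg_left (pow_le_pow_right₀ hT (by omega)) hC
    have h4 : C' * T ^ k' ≤ C' * T ^ (k + k') := mul_le_mul_of_nonneg_left (pow_le_pow_right₀ hT (by omega)) hC'
    have h5 := abs_add_le ((MvPolynomial.eval σ p : ℤ) : ℝ) ((MvPolynomial.eval σ q : ℤ) : ℝ)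
    linarith
  | mul_X p j hp =>
    obtain ⟨C, hC, k, h⟩ := hp
    refine ⟨C, hC, k + 1, fun T hT σ hσ => ?_⟩
    rw [map_mul, MvPolynomial.eval_X, Int.cast_mul, abs_mul, pow_succ, ← mul_assoc]
    exact mul_le_mul (h T hT σ hσ) (hσ j) (abs_nonneg _) (by positivity)

end Pool.Agent.X35.PE
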