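import Pool.Agent.X35.PE.Key

/-! The degrees of units form the multiples of the least one. -/

set_option autoImplicit false

open Polynomial

namespace Pool.Agent.X35.PE

open scoped PowerSeries

section
variable {A : Type*} [CommRing A] [IsDomain A] {F : A[X]} {s : A⟦X⟧} {n : ℕ}

/-- the constant coefficients of a unit -/
lemma unit_coeff (hs : s ^ 2 = (F : A⟦X⟧)) (hs0 : PowerSeries.constantCoeff s = 1) {d : ℕ} (hd : 1 ≤ d)
    {a b : A[X]} {c : A} (hc : c ≠ 0) (hN : a ^ 2 - b ^ 2 * F = C c * X ^ (2 * d))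
    (hdiv : (PowerSeries.X : A⟦X⟧) ^ (2 * d) ∣ (a : A⟦X⟧) - b * s) : a.coeff 0 = b.coeff 0 ∧ b.coeff 0 ≠ 0 := by
  have h0 : a.coeff 0 = b.coeff 0 := by
    have h1 := PowerSeries.X_pow_dvd_iff.1 hdiv 0 (by omega)
    rw [map_sub, Polynomial.coeff_coe, PowerSeries.coeff_zero_eq_constantCoeff_apply, map_mul, hs0, mul_one,
      ← PowerSeries.coeff_zero_eq_constantCoeff_apply, Polynomial.coeff_coe, sub_eq_zero] at h1
    exact h1
  refine ⟨h0, fun hb => ?_⟩
  obtain ⟨t, ht⟩ := hdiv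
  have h1 : (PowerSeries.X : A⟦X⟧) ^ (2 * d) * (t * ((a : A⟦X⟧) + (b : A⟦X⟧) * s)) = PowerSeries.X ^ (2 * d) * PowerSeries.C c := by
    have h2 : ((a ^ 2 - b ^ 2 * F : A[X]) : A⟦X⟧) = ((C c * X ^ (2 * d) : A[X]) : A⟦X⟧) := by rw [hN]
    push_cast at h2
    rw [← hs] at h2
    rw [← mul_assoc, ← ht]
    linear_combination h2
  have h2 := mul_left_cancel₀ (pow_ne_zero _ PowerSeries.X_ne_zero) h1
  have h3 := congrArg PowerSeries.constantCoeff h2
  rw [map_mul, map_add, map_mul, hs0, PowerSeries.constantCoeff_C, ← PowerSeries.coeff_zero_eq_constantCoeff_apply,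
    ← PowerSeries.coeff_zero_eq_constantCoeff_apply, ← PowerSeries.coeff_zero_eq_constantCoeff_apply, Polynomial.coeff_coe,
    Polynomial.coeff_coe, h0, hb] at h3
  simp at h3
  exact hc h3.symm

/-- there is a unit of degree `d` -/
def HasU (F : A[X]) (s : A⟦X⟧) (n d : ℕ) : Prop := ∃ a b : A[X], IsU F s n d a b

omit [IsDomain A] in
lemma HasU.pos (hn : 1 ≤ n) {d : ℕ} (h : HasU F s n d) : 1 ≤ d := by
  obtain ⟨a, b, _, h2, _⟩ := h
  omega

lemma HasU.add (hs : s ^ 2 = (F : A⟦X⟧)) (hs0 : PowerSeries.constantCoeff s = 1) (hn : 1 ≤ n)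
    (hF : F.natDegree ≤ 2 * n) {d e : ℕ} (h : HasU F s n d) (h' : HasU F s n e) : HasU F s n (d + e) := by
  have hd := h.pos hn
  have he := h'.pos hn
  obtain ⟨a, b, h1, h2, h3, ⟨c, hc, hN⟩, h5⟩ := h
  obtain ⟨a', b', h1', h2', h3', ⟨c', hc', hN'⟩, h5'⟩ := h'
  have hN'' : (a * a' + b * b' * F) ^ 2 - (a * b' + b * a') ^ 2 * F = C (c * c') * X ^ (2 * (d + e)) := by
    calc _ = (a ^ 2 - b ^ 2 * F) * (a' ^ 2 - b' ^ 2 * F) := by ring
      _ = _ := by
        rw [hN, hN', C_mul]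
        ring
  have hdiv : (PowerSeries.X : A⟦X⟧) ^ (2 * (d + e)) ∣ ((a * a' + b * b' * F : A[X]) : A⟦X⟧) -
      ((a * b' + b * a' : A[X]) : A⟦X⟧) * s := by
    have : ((a * a' + b * b' * F : A[X]) : A⟦X⟧) - ((a * b' + b * a' : A[X]) : A⟦X⟧) * s =
        ((a : A⟦X⟧) - b * s) * ((a' : A⟦X⟧) - b' * s) := by
      push_cast
      rw [← hs]
      ring
    rw [this, mul_add, pow_add]
    exact mul_dvd_mul h5 h5'
  refine ⟨a * a' + b * b' * F, a * b' + b * a', ?_, ?_, ?_, ⟨c * c', mul_ne_zero hc hc', hN''⟩, hdiv⟩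
  · refine (natDegree_add_le _ _).trans (max_le ?_ ?_)
    · exact natDegree_mul_le.trans (by omega)
    · refine natDegree_mul_le.trans ?_
      have := natDegree_mul_le (p := b) (q := b')
      omega
  · have h5 : (a * b' + b * a').natDegree ≤ max (a.natDegree + b'.natDegree) (b.natDegree + a'.natDegree) :=
      (natDegree_add_le _ _).trans (max_le_max natDegree_mul_le natDegree_mul_le)
    rcases le_max_iff.1 h5 with h | h <;> omega
  · exact (unit_coeff hs hs0 (by omega) (mul_ne_zero hc hc') hN'' hdiv).2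

lemma HasU.mul (hs : s ^ 2 = (F : A⟦X⟧)) (hs0 : PowerSeries.constantCoeff s = 1) (hn : 1 ≤ n)
    (hF : F.natDegree ≤ 2 * n) {g : ℕ} (h : HasU F s n g) {k : ℕ} (hk : 1 ≤ k) : HasU F s n (k * g) := by
  induction k, hk using Nat.le_induction with
  | base => rwa [one_mul]
  | succ k _ ih =>
    rw [add_mul, one_mul]
    exact ih.add hs hs0 hn hF h

/-- polynomial quotient by a power of `X` -/
lemma exists_quot {z : A[X]} {k : ℕ} (h : (PowerSeries.X : A⟦X⟧) ^ k ∣ (z : A⟦X⟧)) : ∃ y : A[X], z = X ^ k * y ∧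
    (y ≠ 0 → z.natDegree = y.natDegree + k) := by
  have h1 : X ^ k ∣ z := by
    rw [X_pow_dvd_iff]
    intro i hi
    have := PowerSeries.X_pow_dvd_iff.1 h i hi
    rwa [Polynomial.coeff_coe] at this
  obtain ⟨y, hy⟩ := h1
  refine ⟨y, hy, fun hy0 => ?_⟩
  rw [hy, natDegree_mul (pow_ne_zero _ X_ne_zero) hy0, natDegree_X_pow, add_comm]

lemma HasU.sub (h2A : (2 : A) ≠ 0) (hs : s ^ 2 = (F : A⟦X⟧)) (hs0 : PowerSeries.constantCoeff s = 1) (hn : 1 ≤ n)
    (hF : F.natDegree ≤ 2 * n) {m g : ℕ} (hmg : g < m) (h : HasU F s n m) (h' : HasU F s n g) :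
    HasU F s n (m - g) := by
  obtain ⟨p, q, h1, h2, h3, ⟨c, hc, hN⟩, h5⟩ := h
  obtain ⟨a, b, h1', h2', h3', ⟨c', hc', hN'⟩, h5'⟩ := h'
  set z1 : A[X] := p * a - q * b * F with hz1
  set z2 : A[X] := q * a - p * b with hz2
  have hplus : (z1 : A⟦X⟧) + z2 * s = ((p : A⟦X⟧) + q * s) * ((a : A⟦X⟧) - b * s) := by
    rw [hz1, hz2]
    push_cast
    rw [← hs]
    ring
  have hminus : (z1 : A⟦X⟧) - z2 * s = ((p : A⟦X⟧) - q * s) * ((a : A⟦X⟧) + b * s) := by
    rw [hz1, hz2]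
    push_cast
    rw [← hs]
    ring
  have d1 : (PowerSeries.X : A⟦X⟧) ^ (2 * g) ∣ (z1 : A⟦X⟧) + z2 * s := by
    rw [hplus]
    exact Dvd.dvd.mul_left h5' _
  have d2' : (PowerSeries.X : A⟦X⟧) ^ (2 * m) ∣ (z1 : A⟦X⟧) - z2 * s := by
    rw [hminus]
    exact Dvd.dvd.mul_right h5 _
  have d2 : (PowerSeries.X : A⟦X⟧) ^ (2 * g) ∣ (z1 : A⟦X⟧) - z2 * s := (pow_dvd_pow _ (by omega)).trans d2'
  have e1 : (PowerSeries.X : A⟦X⟧) ^ (2 * g) ∣ (z1 : A⟦X⟧) := by
    refine xpow_of_C_mul h2A ?_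
    have := dvd_add d1 d2
    convert this using 1
    rw [show PowerSeries.C (2 : A) = 2 from map_ofNat _ 2]
    ring
  have e2 : (PowerSeries.X : A⟦X⟧) ^ (2 * g) ∣ (z2 : A⟦X⟧) := by
    refine xpow_of_mul (u := PowerSeries.C (2 : A) * s) ?_ ?_
    · rw [map_mul, hs0, mul_one, PowerSeries.constantCoeff_C]
      exact h2A
    · have := dvd_sub d1 d2
      convert this using 1
      rw [show PowerSeries.C (2 : A) = 2 from map_ofNat _ 2]
      ring
  obtain ⟨y1, hy1, hy1d⟩ := exists_quot e1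
  obtain ⟨y2, hy2, hy2d⟩ := exists_quot e2
  have hNy : y1 ^ 2 - y2 ^ 2 * F = C (c * c') * X ^ (2 * (m - g)) := by
    have h6 : X ^ (4 * g) * (y1 ^ 2 - y2 ^ 2 * F) = X ^ (4 * g) * (C (c * c') * X ^ (2 * (m - g))) := by
      calc X ^ (4 * g) * (y1 ^ 2 - y2 ^ 2 * F) = (X ^ (2 * g) * y1) ^ 2 - (X ^ (2 * g) * y2) ^ 2 * F := by ring
        _ = z1 ^ 2 - z2 ^ 2 * F := by rw [← hy1, ← hy2]
        _ = (p ^ 2 - q ^ 2 * F) * (a ^ 2 - b ^ 2 * F) := by rw [hz1, hz2]; ring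
        _ = _ := by
          rw [hN, hN', C_mul]
          have : 2 * m = 2 * g + 2 * (m - g) := by omega
          rw [this]
          ring
    exact mul_left_cancel₀ (pow_ne_zero _ X_ne_zero) h6
  have hdiv : (PowerSeries.X : A⟦X⟧) ^ (2 * (m - g)) ∣ (y1 : A⟦X⟧) - y2 * s := by
    have h6 : (PowerSeries.X : A⟦X⟧) ^ (2 * g) * (PowerSeries.X : A⟦X⟧) ^ (2 * (m - g)) ∣
        (PowerSeries.X : A⟦X⟧) ^ (2 * g) * ((y1 : A⟦X⟧) - y2 * s) := by
      rw [← pow_add]
      have : 2 * g + 2 * (m - g) = 2 * m := by omega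
      rw [this]
      convert d2' using 1
      rw [hy1, hy2]
      push_cast
      ring
    exact (mul_dvd_mul_iff_left (pow_ne_zero _ PowerSeries.X_ne_zero)).1 h6
  obtain ⟨h0, h0'⟩ := unit_coeff hs hs0 (by omega) (mul_ne_zero hc hc') hNy hdiv
  have hy20 : y2 ≠ 0 := fun h => h0' (by rw [h, coeff_zero])
  have hy10 : y1 ≠ 0 := fun h => h0' (by rw [← h0, h, coeff_zero])
  refine ⟨y1, y2, ?_, ?_, h0', ⟨_, mul_ne_zero hc hc', hNy⟩, hdiv⟩
  · have h6 := hy1d hy10
    have h7 : z1.natDegree ≤ m + g := by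
      rw [hz1]
      refine (natDegree_sub_le _ _).trans (max_le ?_ ?_)
      · exact natDegree_mul_le.trans (by omega)
      · refine natDegree_mul_le.trans ?_
        have := natDegree_mul_le (p := q) (q := b)
        omega
    omega
  · have h6 := hy2d hy20
    have h7 : z2.natDegree + n ≤ m + g := by
      have h5 : (q * a - p * b).natDegree ≤ max (q.natDegree + a.natDegree) (p.natDegree + b.natDegree) :=
        (natDegree_sub_le _ _).trans (max_le_max natDegree_mul_le natDegree_mul_le)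
      rw [← hz2] at h5
      rcases le_max_iff.1 h5 with h | h <;> omega
    omega

/-- the least degree divides every degree -/
lemma dvd_of_least (h2A : (2 : A) ≠ 0) (hs : s ^ 2 = (F : A⟦X⟧)) (hs0 : PowerSeries.constantCoeff s = 1) (hn : 1 ≤ n)
    (hF : F.natDegree ≤ 2 * n) {g : ℕ} (hg : HasU F s n g) (hmin : ∀ e, HasU F s n e → g ≤ e) :
    ∀ m, HasU F s n m → g ∣ m := by
  intro m
  induction m using Nat.strong_induction_on with
  | _ m ih =>
    intro hm
    have h1 := hmin m hm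
    rcases h1.eq_or_lt with h | h
    · exact dvd_of_eq h
    · have h2 := hm.sub h2A hs hs0 hn hF h hg
      have h3 := ih (m - g) (by have := hg.pos hn; omega) h2
      have h4 : m = (m - g) + g := by omega
      rw [h4]
      exact dvd_add h3 dvd_rfl

/-- solutions of the Pell equation give units -/
lemma orient (h2A : (2 : A) ≠ 0) (hs : s ^ 2 = (F : A⟦X⟧)) (hs0 : PowerSeries.constantCoeff s = 1) (hn : 1 ≤ n) :
    ∀ (M : ℕ) (P Q : A[X]) (c : A), P.natDegree ≤ M → Q.natDegree + n ≤ M → Q ≠ 0 → c ≠ 0 →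
      P ^ 2 - Q ^ 2 * F = C c * X ^ (2 * M) → ∃ m, m ≤ M ∧ HasU F s n m := by
  intro M
  induction M with
  | zero => intro P Q c _ h2; omega
  | succ M ih =>
    intro P Q c hP hQ hQ0 hc hN
    have hprod : ((P : A⟦X⟧) - (Q : A⟦X⟧) * s) * ((P : A⟦X⟧) + (Q : A⟦X⟧) * s) = PowerSeries.C c * PowerSeries.X ^ (2 * (M + 1)) := by
      have h2 : ((P ^ 2 - Q ^ 2 * F : A[X]) : A⟦X⟧) = ((C c * X ^ (2 * (M + 1)) : A[X]) : A⟦X⟧) := by rw [hN]
      push_cast at h2
      rw [← hs] at h2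
      linear_combination h2
    have hcc : ∀ R : A[X], PowerSeries.constantCoeff (R : A⟦X⟧) = R.coeff 0 := fun R => by
      rw [← PowerSeries.coeff_zero_eq_constantCoeff_apply, Polynomial.coeff_coe]
    by_cases hp : P.coeff 0 + Q.coeff 0 = 0
    · by_cases hm : P.coeff 0 - Q.coeff 0 = 0
      · -- both vanish
        have hQ0' : Q.coeff 0 = 0 := by
          have : (2 : A) * Q.coeff 0 = 0 := by linear_combination hp - hm
          exact (mul_eq_zero.1 this).resolve_left h2A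
        have hP0' : P.coeff 0 = 0 := by linear_combination hp - hQ0'
        obtain ⟨P1, hP1⟩ := X_dvd_iff.2 hP0'
        obtain ⟨Q1, hQ1⟩ := X_dvd_iff.2 hQ0'
        have hQ10 : Q1 ≠ 0 := fun h => hQ0 (by rw [hQ1, h, mul_zero])
        have hQd : Q.natDegree = Q1.natDegree + 1 := by
          rw [hQ1, natDegree_X_mul hQ10]
        have hPd : P1.natDegree ≤ M := by
          by_cases h : P1 = 0
          · rw [h, natDegree_zero]; omega
          · have : P.natDegree = P1.natDegree + 1 := by rw [hP1, natDegree_X_mul h]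
            omega
        have hN1 : P1 ^ 2 - Q1 ^ 2 * F = C c * X ^ (2 * M) := by
          have h6 : X ^ 2 * (P1 ^ 2 - Q1 ^ 2 * F) = X ^ 2 * (C c * X ^ (2 * M)) := by
            calc X ^ 2 * (P1 ^ 2 - Q1 ^ 2 * F) = (X * P1) ^ 2 - (X * Q1) ^ 2 * F := by ring
              _ = P ^ 2 - Q ^ 2 * F := by rw [← hP1, ← hQ1]
              _ = _ := by rw [hN]; ring
          exact mul_left_cancel₀ (pow_ne_zero _ X_ne_zero) h6
        obtain ⟨m, hm, h⟩ := ih P1 Q1 c hPd (by omega) hQ10 hc hN1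
        exact ⟨m, by omega, h⟩
      · -- the other orientation
        have hdiv : (PowerSeries.X : A⟦X⟧) ^ (2 * (M + 1)) ∣ (P : A⟦X⟧) - ((-Q : A[X]) : A⟦X⟧) * s := by
          refine xpow_of_mul (u := (P : A⟦X⟧) - (Q : A⟦X⟧) * s) ?_ ?_
          · rw [map_sub, map_mul, hs0, mul_one, hcc, hcc]
            exact hm
          · push_cast
            rw [neg_mul, sub_neg_eq_add, mul_comm ((P : A⟦X⟧) + (Q : A⟦X⟧) * s), hprod]
            exact Dvd.intro_left _ rfl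
        have hN' : P ^ 2 - (-Q) ^ 2 * F = C c * X ^ (2 * (M + 1)) := by rw [neg_sq, hN]
        refine ⟨M + 1, le_rfl, P, -Q, hP, by rwa [natDegree_neg],
          (unit_coeff hs hs0 (by omega) hc hN' hdiv).2, ⟨c, hc, hN'⟩, hdiv⟩
    · have hdiv : (PowerSeries.X : A⟦X⟧) ^ (2 * (M + 1)) ∣ (P : A⟦X⟧) - (Q : A⟦X⟧) * s := by
        refine xpow_of_mul (u := (P : A⟦X⟧) + (Q : A⟦X⟧) * s) ?_ ?_
        · rw [map_add, map_mul, hs0, mul_one, hcc, hcc]
          exact hp
        · rw [hprod]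
          exact Dvd.intro_left _ rfl
      exact ⟨M + 1, le_rfl, P, Q, hP, hQ, (unit_coeff hs hs0 (by omega) hc hN hdiv).2, ⟨c, hc, hN⟩, hdiv⟩

end

end Pool.Agent.X35.PE
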